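import Mathlib
set_option autoImplicit false
namespace Pool.Agent.H.MP_106964_gt
open Set Filter Topology Cardinal AlgebraicTopology CategoryTheory
open scoped ContDiff RealInnerProductSpace

variable {V : Type} [NormedAddCommGroup V] [InnerProductSpace ℝ V]

def tang (A : Set V) (b : V) : Set V :=
  {v | ∃ c : ℝ → V, c 0 = b ∧ (∀ᶠ s in 𝓝 0, c s ∈ A) ∧ HasDerivAt c v 0}

def IsGeo (N : Set V) (γ : ℝ → V) : Prop :=
  ContDiff ℝ ∞ γ ∧ ∀ t, γ t ∈ N ∧ ∀ v ∈ tang N (γ t), ⟪deriv (deriv γ) t, v⟫ = 0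

def NormalGeo (N M : Set V) (γ : ℝ → V) : Prop :=
  IsGeo N γ ∧ γ 0 ∈ M ∧ ∀ v ∈ tang M (γ 0), ⟪deriv γ 0, v⟫ = 0

def Focal (N M : Set V) (p : V) : Prop :=
  ∃ (Γ : ℝ → ℝ → V) (w : V × V), (∀ s, NormalGeo N M (Γ s)) ∧ Γ 0 1 = p ∧ w ≠ 0 ∧
    HasDerivAt (fun s => (Γ s 0, deriv (Γ s) 0)) w 0 ∧ HasDerivAt (fun s => Γ s 1) 0 0

noncomputable def energy (γ : ℝ → V) : ℝ := ∫ t in (0 : ℝ)..1, ‖deriv γ t‖ ^ 2

def IdxGe (N M : Set V) (p : V) (γ : ℝ → V) (k : ℕ) : Prop :=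
  ∃ Γ : (Fin k → ℝ) → ℝ → V, ContDiff ℝ ∞ (fun q : (Fin k → ℝ) × ℝ => Γ q.1 q.2) ∧ Γ 0 = γ ∧
    (∀ s t, Γ s t ∈ N) ∧ (∀ s, Γ s 0 ∈ M ∧ Γ s 1 = p) ∧
    ∀ u ≠ 0, deriv (deriv fun r : ℝ => energy (Γ (r • u))) 0 < 0

def Crit (N M : Set V) (p : V) (k : ℕ) : Set (ℝ → V) :=
  {γ | NormalGeo N M γ ∧ γ 1 = p ∧ IdxGe N M p γ k ∧ ¬ IdxGe N M p γ (k + 1)}

def PathSp (N M : Set V) (p : V) : Set C(unitInterval, V) :=
  {c | (∀ t, c t ∈ N) ∧ c 0 ∈ M ∧ c 1 = p}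

noncomputable def betti (F : Type) [Field F] (k : ℕ) (X : Type) [TopologicalSpace X] : Cardinal :=
  Module.rank F (((singularHomologyFunctor (ModuleCat F) k).obj (ModuleCat.of F F)).obj
    (TopCat.of X))

def Taut (N M : Set V) : Prop :=
  ∃ (F : Type) (_ : Field F), ∀ p ∈ N, ¬ Focal N M p →
    ∀ k, Cardinal.mk (Crit N M p k) = betti F k (PathSp N M p)

lemma betti0 (F : Type) [Field F] (X : Type) [TopologicalSpace X] :
    betti F 0 X = Cardinal.mk (ZerothHomotopy X) := by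
  classical
  have e := (TopCat.singularHomology₀Iso (TopCat.of X) (ModuleCat.of F F) ≪≫
    ModuleCat.coprodIsoDirectSum _).toLinearEquiv
  rw [betti, e.rank_eq, rank_directSum]
  simp

lemma bettiK (F : Type) [Field F] (X : Type) [TopologicalSpace X] (n : C(X, ℤ)) (j : C(ℤ, X))
    (H : (ContinuousMap.id X).Homotopy (j.comp n)) (k : ℕ) : betti F (k + 1) X = 0 := by
  have h1 := TopCat.Homotopy.congr_homologyMap_singularChainComplexFunctor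
    (f := 𝟙 (TopCat.of X)) (g := TopCat.ofHom n ≫ TopCat.ofHom j) H (ModuleCat.of F F) (k + 1)
  have h2 := isZero_singularHomologyFunctor_of_totallyDisconnectedSpace (ModuleCat F) (k + 1)
    (ModuleCat.of F F) (TopCat.of ℤ) (Nat.succ_ne_zero k)
  have h3 : ((singularHomologyFunctor (ModuleCat F) (k + 1)).obj (ModuleCat.of F F)).map
      (𝟙 (TopCat.of X)) = ((singularHomologyFunctor (ModuleCat F) (k + 1)).obj
        (ModuleCat.of F F)).map (TopCat.ofHom n ≫ TopCat.ofHom j) := h1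
  have h5 : ((singularHomologyFunctor (ModuleCat F) (k + 1)).obj
    (ModuleCat.of F F)).map (TopCat.ofHom j) = 0 := h2.eq_of_src _ _
  rw [CategoryTheory.Functor.map_id, Functor.map_comp, h5, Limits.comp_zero] at h3
  have h4 := ModuleCat.subsingleton_of_isZero ((Limits.IsZero.iff_id_eq_zero _).2 h3)
  exact rank_subsingleton' _ _

lemma par_deriv {Γ : ℝ → ℝ → V} (h : ContDiff ℝ ∞ fun q : ℝ × ℝ => Γ q.1 q.2) :
    Continuous (fun q : ℝ × ℝ => deriv (Γ q.1) q.2) := by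
  have : (fun q : ℝ × ℝ => deriv (Γ q.1) q.2) =
      fun q => fderiv ℝ (fun q : ℝ × ℝ => Γ q.1 q.2) q (0, 1) := by
    ext q
    have h1 : HasDerivAt (fun t : ℝ => (q.1, t)) (0, 1) q.2 :=
      (hasDerivAt_const _ _).prodMk (hasDerivAt_id _)
    exact ((h.differentiable (by simp) q).hasFDerivAt.comp_hasDerivAt q.2 h1).deriv
  rw [this]
  exact (h.continuous_fderiv (by simp)).clm_apply continuous_const

lemma idx_zero {N M : Set V} {p : V} {γ : ℝ → V}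
    (h : ∀ Γ : ℝ → ℝ → V, ContDiff ℝ ∞ (fun q : ℝ × ℝ => Γ q.1 q.2) → Γ 0 = γ →
      (∀ s t, Γ s t ∈ N) → (∀ s, Γ s 0 ∈ M ∧ Γ s 1 = p) →
      ∀ᶠ r in 𝓝 0, energy γ ≤ energy (Γ r)) (k : ℕ) : ¬ IdxGe N M p γ (k + 1) := by
  rintro ⟨Γ, h1, h2, h3, h4, h5⟩
  have hu : (fun _ : Fin (k + 1) => (1 : ℝ)) ≠ 0 := fun e => one_ne_zero (congrFun e 0)
  have hs : ContDiff ℝ ∞ fun q : ℝ × ℝ => Γ (q.1 • fun _ => 1) q.2 :=
    h1.comp (f := fun q : ℝ × ℝ => ((q.1 • fun _ => 1 : Fin (k + 1) → ℝ), q.2)) (by fun_prop)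
  have hmin : IsLocalMin (fun r : ℝ => energy (Γ (r • fun _ => 1))) 0 := by
    have := h (fun r => Γ (r • fun _ => 1)) hs (by simpa using h2) (fun _ _ => h3 _ _)
      fun _ => h4 _
    rw [← h2] at this
    simpa [IsLocalMin, IsMinFilter] using this
  have hc : Continuous fun r : ℝ => energy (Γ (r • fun _ => 1)) :=
    intervalIntegral.continuous_parametric_intervalIntegral_of_continuous'
      ((par_deriv (Γ := fun r => Γ (r • fun _ => 1)) hs).norm.pow 2) 0 1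
  have hmax := isLocalMax_of_deriv_deriv_neg (h5 _ hu) hmin.deriv_eq_zero hc.continuousAt
  have hconst : (fun r : ℝ => energy (Γ (r • fun _ => 1))) =ᶠ[𝓝 0]
      fun _ => energy (Γ ((0 : ℝ) • fun _ => 1)) :=
    (hmin.and hmax).mono fun r hr => le_antisymm hr.2 hr.1
  have := h5 _ hu
  rw [hconst.deriv.deriv_eq] at this
  simp at this

lemma idx_ge0 {N M : Set V} {p : V} {γ : ℝ → V} (h : NormalGeo N M γ) (hp : γ 1 = p) :
    IdxGe N M p γ 0 :=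
  ⟨fun _ => γ, h.1.1.comp contDiff_snd, rfl, fun _ t => (h.1.2 t).1, fun _ => ⟨h.2.1, hp⟩,
    fun _ hu => absurd (Subsingleton.elim _ _) hu⟩

abbrev W := EuclideanSpace ℝ (Fin 6)

lemma hd {γ : ℝ → W} {v : W} {t : ℝ} (h : HasDerivAt γ v t) (j : Fin 6) :
    HasDerivAt (fun t => γ t j) (v j) t :=
  (EuclideanSpace.proj j : W →L[ℝ] ℝ).hasFDerivAt.comp_hasDerivAt t h

lemma hd' {γ : ℝ → W} {v : W} {t : ℝ} (h : ∀ j, HasDerivAt (fun t => γ t j) (v j) t) :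
    HasDerivAt γ v t :=
  (PiLp.continuousLinearEquiv 2 ℝ (fun _ : Fin 6 => ℝ)).symm.toContinuousLinearMap.hasFDerivAt.comp_hasDerivAt
    t (hasDerivAt_pi.2 h)

lemma inn (x y : W) : ⟪x, y⟫ =
    x 0 * y 0 + x 1 * y 1 + x 2 * y 2 + x 3 * y 3 + x 4 * y 4 + x 5 * y 5 := by
  simp [PiLp.inner_apply, Fin.sum_univ_six, mul_comm]

lemma nrm (x : W) : ‖x‖ ^ 2 = x 0 ^ 2 + x 1 ^ 2 + x 2 ^ 2 + x 3 ^ 2 + x 4 ^ 2 + x 5 ^ 2 := by
  rw [← real_inner_self_eq_norm_sq, inn]; ring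

lemma sm1 {γ : ℝ → W} (h : ContDiff ℝ ∞ γ) (t : ℝ) (j : Fin 6) :
    HasDerivAt (fun t => γ t j) (deriv γ t j) t :=
  hd (h.differentiable (by simp) t).hasDerivAt j

lemma sm2 {γ : ℝ → W} (h : ContDiff ℝ ∞ γ) (t : ℝ) (j : Fin 6) :
    HasDerivAt (fun t => deriv γ t j) (deriv (deriv γ) t j) t :=
  sm1 (contDiff_infty_iff_deriv.1 h).2 t j

def N0 : Set W := {x | x 0 ^ 2 + x 1 ^ 2 + x 2 ^ 2 = 1 ∧ x 3 ^ 2 + x 4 ^ 2 + x 5 ^ 2 = 1}
def N1 : Set W := {x | x ∈ N0 ∧ x 2 = 0 ∧ x 5 = 0}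
def M : Set W := {x | x ∈ N1 ∧ x 0 = x 3 ∧ x 1 = x 4}

lemma zero_of_ev {f : ℝ → ℝ} {a c : ℝ} (h : HasDerivAt f a 0) (he : ∀ᶠ s in 𝓝 (0 : ℝ), f s = c) :
    a = 0 :=
  h.unique ((hasDerivAt_const (0 : ℝ) c).congr_of_eventuallyEq he)

lemma tang_N0 {x v : W} (h : v ∈ tang N0 x) :
    x 0 * v 0 + x 1 * v 1 + x 2 * v 2 = 0 ∧ x 3 * v 3 + x 4 * v 4 + x 5 * v 5 = 0 := by
  obtain ⟨c, rfl, h1, h2⟩ := h
  have a1 := zero_of_ev ((((hd h2 0).pow 2).add ((hd h2 1).pow 2)).add ((hd h2 2).pow 2))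
    (h1.mono fun s hs => hs.1)
  have a2 := zero_of_ev ((((hd h2 3).pow 2).add ((hd h2 4).pow 2)).add ((hd h2 5).pow 2))
    (h1.mono fun s hs => hs.2)
  simp at a1 a2
  constructor <;> linarith

lemma tang_mono {A B : Set W} (h : A ⊆ B) {x : W} : tang A x ⊆ tang B x :=
  fun _ ⟨c, h0, h1, h2⟩ => ⟨c, h0, h1.mono fun _ hs => h hs, h2⟩

lemma tang_M {x v : W} (h : v ∈ tang M x) : v 2 = 0 ∧ v 5 = 0 ∧ v 0 = v 3 ∧ v 1 = v 4 := by
  obtain ⟨c, rfl, h1, h2⟩ := h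
  refine ⟨zero_of_ev (hd h2 2) (h1.mono fun s hs => hs.1.2.1),
    zero_of_ev (hd h2 5) (h1.mono fun s hs => hs.1.2.2), sub_eq_zero.1 ?_, sub_eq_zero.1 ?_⟩
  · exact zero_of_ev ((hd h2 0).sub (hd h2 3)) (h1.mono fun s hs => sub_eq_zero.2 hs.2.1)
  · exact zero_of_ev ((hd h2 1).sub (hd h2 4)) (h1.mono fun s hs => sub_eq_zero.2 hs.2.2)

lemma rotT {A : Set W} {x a b : W} (h : ∀ c s : ℝ, c ^ 2 + s ^ 2 = 1 → x + (c - 1) • a + s • b ∈ A) :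
    b ∈ tang A x := by
  refine ⟨fun s => x + (Real.cos s - 1) • a + Real.sin s • b, by simp,
    Eventually.of_forall fun s => h _ _ (Real.cos_sq_add_sin_sq s), ?_⟩
  have := ((((Real.hasDerivAt_cos 0).sub_const 1).smul_const a).const_add x).add
    ((Real.hasDerivAt_sin 0).smul_const b)
  exact this.congr_deriv (by simp)

def GeoEq (γ : ℝ → W) : Prop := ∀ t, ∃ l m : ℝ,
  deriv (deriv γ) t = !₂[l * γ t 0, l * γ t 1, l * γ t 2, m * γ t 3, m * γ t 4, m * γ t 5]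

lemma geo_of_eq {A : Set W} (hA : A ⊆ N0) {γ : ℝ → W} (h : ContDiff ℝ ∞ γ) (h1 : ∀ t, γ t ∈ A)
    (h2 : GeoEq γ) : IsGeo A γ := by
  refine ⟨h, fun t => ⟨h1 t, fun v hv => ?_⟩⟩
  obtain ⟨l, m, e⟩ := h2 t
  obtain ⟨a, b⟩ := tang_N0 (tang_mono hA hv)
  rw [e, inn]
  simp
  linear_combination l * a + m * b

lemma cross {x0 x1 x2 d0 d1 d2 : ℝ} (h : x0 ^ 2 + x1 ^ 2 + x2 ^ 2 = 1) (a : d1 * x0 = d0 * x1)
    (b : d2 * x0 = d0 * x2) (c : d2 * x1 = d1 * x2) :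
    ∃ l, d0 = l * x0 ∧ d1 = l * x1 ∧ d2 = l * x2 :=
  ⟨d0 * x0 + d1 * x1 + d2 * x2, by linear_combination -d0 * h - x1 * a - x2 * b,
    by linear_combination -d1 * h + x0 * a - x2 * c, by linear_combination -d2 * h + x0 * b + x1 * c⟩

lemma geoEq_mk {γ : ℝ → W} {t : ℝ} {l m : ℝ} (a : deriv (deriv γ) t 0 = l * γ t 0 ∧
    deriv (deriv γ) t 1 = l * γ t 1 ∧ deriv (deriv γ) t 2 = l * γ t 2)
    (b : deriv (deriv γ) t 3 = m * γ t 3 ∧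
    deriv (deriv γ) t 4 = m * γ t 4 ∧ deriv (deriv γ) t 5 = m * γ t 5) :
    deriv (deriv γ) t = !₂[l * γ t 0, l * γ t 1, l * γ t 2, m * γ t 3, m * γ t 4, m * γ t 5] := by
  ext j
  fin_cases j
  exacts [a.1, a.2.1, a.2.2, b.1, b.2.1, b.2.2]

lemma eq_of_geo0 {γ : ℝ → W} (h : IsGeo N0 γ) : GeoEq γ := by
  intro t
  obtain ⟨⟨h1, h2⟩, h3⟩ := h.2 t
  obtain ⟨x, hx⟩ : ∃ x, x = γ t := ⟨_, rfl⟩
  rw [← hx] at h1 h2 h3
  have a1 := h3 _ (rotT (a := !₂[x 0, x 1, 0, 0, 0, 0]) (b := !₂[-x 1, x 0, 0, 0, 0, 0])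
    fun c s hcs => ⟨by simp; linear_combination (x 0 ^ 2 + x 1 ^ 2) * hcs + h1, by simpa using h2⟩)
  have a2 := h3 _ (rotT (a := !₂[x 0, 0, x 2, 0, 0, 0]) (b := !₂[-x 2, 0, x 0, 0, 0, 0])
    fun c s hcs => ⟨by simp; linear_combination (x 0 ^ 2 + x 2 ^ 2) * hcs + h1, by simpa using h2⟩)
  have a3 := h3 _ (rotT (a := !₂[0, x 1, x 2, 0, 0, 0]) (b := !₂[0, -x 2, x 1, 0, 0, 0])
    fun c s hcs => ⟨by simp; linear_combination (x 1 ^ 2 + x 2 ^ 2) * hcs + h1, by simpa using h2⟩)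
  have a4 := h3 _ (rotT (a := !₂[0, 0, 0, x 3, x 4, 0]) (b := !₂[0, 0, 0, -x 4, x 3, 0])
    fun c s hcs => ⟨by simpa using h1, by simp; linear_combination (x 3 ^ 2 + x 4 ^ 2) * hcs + h2⟩)
  have a5 := h3 _ (rotT (a := !₂[0, 0, 0, x 3, 0, x 5]) (b := !₂[0, 0, 0, -x 5, 0, x 3])
    fun c s hcs => ⟨by simpa using h1, by simp; linear_combination (x 3 ^ 2 + x 5 ^ 2) * hcs + h2⟩)
  have a6 := h3 _ (rotT (a := !₂[0, 0, 0, 0, x 4, x 5]) (b := !₂[0, 0, 0, 0, -x 5, x 4])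
    fun c s hcs => ⟨by simpa using h1, by simp; linear_combination (x 4 ^ 2 + x 5 ^ 2) * hcs + h2⟩)
  rw [inn] at a1 a2 a3 a4 a5 a6
  simp at a1 a2 a3 a4 a5 a6
  obtain ⟨l, hl⟩ := cross (d0 := deriv (deriv γ) t 0) (d1 := deriv (deriv γ) t 1)
    (d2 := deriv (deriv γ) t 2) h1 (by linarith) (by linarith) (by linarith)
  obtain ⟨m, hm⟩ := cross (d0 := deriv (deriv γ) t 3) (d1 := deriv (deriv γ) t 4)
    (d2 := deriv (deriv γ) t 5) h2 (by linarith) (by linarith) (by linarith)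
  rw [hx] at hl hm
  exact ⟨l, m, geoEq_mk hl hm⟩

lemma eq_of_geo1 {γ : ℝ → W} (h : IsGeo N1 γ) : GeoEq γ := by
  intro t
  have z2 : deriv (deriv γ) t 2 = 0 := by
    have e1 : (fun t => deriv γ t 2) = fun _ => 0 := funext fun t =>
      (sm1 h.1 t 2).unique ((hasDerivAt_const t (0 : ℝ)).congr_of_eventuallyEq
        (Eventually.of_forall fun s => (h.2 s).1.2.1))
    exact (sm2 h.1 t 2).unique (by rw [e1]; exact hasDerivAt_const _ _)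
  have z5 : deriv (deriv γ) t 5 = 0 := by
    have e1 : (fun t => deriv γ t 5) = fun _ => 0 := funext fun t =>
      (sm1 h.1 t 5).unique ((hasDerivAt_const t (0 : ℝ)).congr_of_eventuallyEq
        (Eventually.of_forall fun s => (h.2 s).1.2.2))
    exact (sm2 h.1 t 5).unique (by rw [e1]; exact hasDerivAt_const _ _)
  obtain ⟨⟨⟨h1, h2⟩, h4, h5⟩, h3⟩ := h.2 t
  obtain ⟨x, hx⟩ : ∃ x, x = γ t := ⟨_, rfl⟩
  rw [← hx] at h1 h2 h3 h4 h5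
  have a1 := h3 _ (rotT (a := !₂[x 0, x 1, 0, 0, 0, 0]) (b := !₂[-x 1, x 0, 0, 0, 0, 0])
    fun c s hcs => ⟨⟨by simp; linear_combination (x 0 ^ 2 + x 1 ^ 2) * hcs + h1,
      by simpa using h2⟩, by simpa using h4, by simpa using h5⟩)
  have a4 := h3 _ (rotT (a := !₂[0, 0, 0, x 3, x 4, 0]) (b := !₂[0, 0, 0, -x 4, x 3, 0])
    fun c s hcs => ⟨⟨by simpa using h1,
      by simp; linear_combination (x 3 ^ 2 + x 4 ^ 2) * hcs + h2⟩, by simpa using h4,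
      by simpa using h5⟩)
  rw [inn] at a1 a4
  simp at a1 a4
  obtain ⟨l, hl⟩ := cross (d0 := deriv (deriv γ) t 0) (d1 := deriv (deriv γ) t 1)
    (d2 := deriv (deriv γ) t 2) h1 (by linarith) (by simp [z2, h4]) (by simp [z2, h4])
  obtain ⟨m, hm⟩ := cross (d0 := deriv (deriv γ) t 3) (d1 := deriv (deriv γ) t 4)
    (d2 := deriv (deriv γ) t 5) h2 (by linarith) (by simp [z5, h5]) (by simp [z5, h5])
  rw [hx] at hl hm
  exact ⟨l, m, geoEq_mk hl hm⟩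

lemma totgeo {γ : ℝ → W} (h : IsGeo N1 γ) : IsGeo N0 γ :=
  geo_of_eq subset_rfl h.1 (fun t => (h.2 t).1.1) (eq_of_geo1 h)

lemma normal_iff {x v : W} (hx : x ∈ M) :
    (∀ w ∈ tang M x, ⟪v, w⟫ = 0) ↔ -x 1 * (v 0 + v 3) + x 0 * (v 1 + v 4) = 0 := by
  obtain ⟨⟨⟨h1, h2⟩, h3, h4⟩, h5, h6⟩ := hx
  constructor
  · intro h
    have := h _ (rotT (a := !₂[x 0, x 1, 0, x 0, x 1, 0]) (b := !₂[-x 1, x 0, 0, -x 1, x 0, 0])
      fun c s hcs => ⟨⟨⟨by simp; linear_combination (x 0 ^ 2 + x 1 ^ 2) * hcs + h1,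
        by simp [← h5, ← h6, h4]; linear_combination (x 0 ^ 2 + x 1 ^ 2) * hcs + h1 - x 2 * h3⟩,
        by simpa using h3, by simpa using h4⟩, by simp [h5], by simp [h6]⟩)
    rw [inn] at this
    simp at this
    linarith
  · intro h w hw
    obtain ⟨a, b, c, d⟩ := tang_M hw
    have e := (tang_N0 (tang_mono (fun y hy => hy.1.1) hw)).1
    rw [inn, a, b, ← c, ← d]
    rw [h3] at h1 e
    linear_combination (-(v 0 + v 3) * w 0 - (v 1 + v 4) * w 1) * h1 +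
      ((v 0 + v 3) * x 0 + (v 1 + v 4) * x 1) * e + (x 0 * w 1 - x 1 * w 0) * h

end Pool.Agent.H.MP_106964_gt
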