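import Mathlib
import Pool.Agent.H.MP_106964_gt.D
set_option autoImplicit false
namespace Pool.Agent.H.MP_106964_gt
open Set Filter Topology Real
open scoped ContDiff RealInnerProductSpace

noncomputable def S (l t : ℝ) : ℝ := if l = 0 then t else sin (l * t) / l

lemma S_deriv (l t : ℝ) : HasDerivAt (S l) (cos (l * t)) t := by
  unfold S
  split_ifs with h
  · simpa [h] using hasDerivAt_id' t
  · refine (((hasDerivAt_id' t).const_mul l).sin.div_const l).congr_deriv ?_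
    field_simp

lemma S_mul (l t : ℝ) : l * S l t = sin (l * t) := by
  unfold S
  split_ifs with h
  · simp [h]
  · field_simp

lemma const_of {f : ℝ → ℝ} (h : ∀ t, HasDerivAt f 0 t) (t : ℝ) : f t = f 0 :=
  is_const_of_deriv_eq_zero (fun t => (h t).differentiableAt) (fun t => (h t).deriv) t 0

lemma ode {y y' : ℝ → ℝ} {l : ℝ} (h1 : ∀ t, HasDerivAt y (y' t) t)
    (h2 : ∀ t, HasDerivAt y' (-(l ^ 2 * y t)) t) (t : ℝ) :
    y t = cos (l * t) * y 0 + S l t * y' 0 := by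
  have c1 : ∀ t, HasDerivAt (fun t => cos (l * t)) (-(l ^ 2 * S l t)) t := fun t => by
    refine ((hasDerivAt_id' t).const_mul l).cos.congr_deriv ?_
    rw [← S_mul]; ring
  have a1 : ∀ t, HasDerivAt (fun t => y t - (cos (l * t) * y 0 + S l t * y' 0))
      (y' t - (-(l ^ 2 * S l t) * y 0 + cos (l * t) * y' 0)) t := fun t =>
    (h1 t).sub (((c1 t).mul_const _).add ((S_deriv l t).mul_const _))
  have a2 : ∀ t, HasDerivAt (fun t => y' t - (-(l ^ 2 * S l t) * y 0 + cos (l * t) * y' 0))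
      (-(l ^ 2 * (y t - (cos (l * t) * y 0 + S l t * y' 0)))) t := fun t => by
    refine ((h2 t).sub (((((S_deriv l t).const_mul (l ^ 2)).neg).mul_const _).add
      ((c1 t).mul_const _))).congr_deriv ?_
    ring
  have s0 : S l 0 = 0 := by simp [S]
  have a3 := const_of (f := fun t => (y' t - (-(l ^ 2 * S l t) * y 0 + cos (l * t) * y' 0)) ^ 2 +
    l ^ 2 * (y t - (cos (l * t) * y 0 + S l t * y' 0)) ^ 2) fun t => by
      refine (((a2 t).pow 2).add (((a1 t).pow 2).const_mul (l ^ 2))).congr_deriv ?_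
      simp; ring
  have a4 : ∀ t, y' t - (-(l ^ 2 * S l t) * y 0 + cos (l * t) * y' 0) = 0 := fun t => by
    have := a3 t
    simp only [s0, mul_zero, cos_zero, neg_zero, zero_mul, one_mul, zero_add, add_zero, sub_self,
      ne_eq, OfNat.ofNat_ne_zero, not_false_eq_true, zero_pow] at this
    have h5 := mul_nonneg (sq_nonneg l) (sq_nonneg (y t - (cos (l * t) * y 0 + S l t * y' 0)))
    exact pow_eq_zero_iff two_ne_zero |>.1 (le_antisymm (by linarith) (sq_nonneg _))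
  have := const_of (fun t => (a1 t).congr_deriv (a4 t)) t
  simp only [s0, mul_zero, cos_zero, one_mul, zero_mul, add_zero, sub_self] at this
  linarith

lemma orth {x0 x1 x2 d0 d1 d2 : ℝ → ℝ} (a0 : ∀ t, HasDerivAt x0 (d0 t) t)
    (a1 : ∀ t, HasDerivAt x1 (d1 t) t) (a2 : ∀ t, HasDerivAt x2 (d2 t) t)
    (h : ∀ t, x0 t ^ 2 + x1 t ^ 2 + x2 t ^ 2 = 1) (t : ℝ) :
    x0 t * d0 t + x1 t * d1 t + x2 t * d2 t = 0 := by
  have := ((((a0 t).pow 2).add ((a1 t).pow 2)).add ((a2 t).pow 2)).unique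
    ((hasDerivAt_const t (1 : ℝ)).congr_of_eventuallyEq (Eventually.of_forall h))
  simp at this
  linarith

lemma block {x0 x1 x2 d0 d1 d2 e0 e1 e2 : ℝ → ℝ} (a0 : ∀ t, HasDerivAt x0 (d0 t) t)
    (a1 : ∀ t, HasDerivAt x1 (d1 t) t) (a2 : ∀ t, HasDerivAt x2 (d2 t) t)
    (b0 : ∀ t, HasDerivAt d0 (e0 t) t) (b1 : ∀ t, HasDerivAt d1 (e1 t) t)
    (b2 : ∀ t, HasDerivAt d2 (e2 t) t) (h : ∀ t, x0 t ^ 2 + x1 t ^ 2 + x2 t ^ 2 = 1)
    (he : ∀ t, ∃ l, e0 t = l * x0 t ∧ e1 t = l * x1 t ∧ e2 t = l * x2 t) {l : ℝ}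
    (hl : l ^ 2 = d0 0 ^ 2 + d1 0 ^ 2 + d2 0 ^ 2) (t : ℝ) :
    x0 t = cos (l * t) * x0 0 + S l t * d0 0 ∧ x1 t = cos (l * t) * x1 0 + S l t * d1 0 ∧
      x2 t = cos (l * t) * x2 0 + S l t * d2 0 := by
  have o := orth a0 a1 a2 h
  have k := const_of (f := fun t => d0 t ^ 2 + d1 t ^ 2 + d2 t ^ 2) fun t => by
    obtain ⟨m, p0, p1, p2⟩ := he t
    refine ((((b0 t).pow 2).add ((b1 t).pow 2)).add ((b2 t).pow 2)).congr_deriv ?_
    simp only [p0, p1, p2]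
    simp
    linear_combination 2 * m * o t
  have q : ∀ t, e0 t = -(l ^ 2 * x0 t) ∧ e1 t = -(l ^ 2 * x1 t) ∧ e2 t = -(l ^ 2 * x2 t) := by
    intro t
    obtain ⟨m, p0, p1, p2⟩ := he t
    have := ((((a0 t).mul (b0 t)).add ((a1 t).mul (b1 t))).add ((a2 t).mul (b2 t))).unique
      ((hasDerivAt_const t (0 : ℝ)).congr_of_eventuallyEq (Eventually.of_forall o))
    rw [p0, p1, p2] at this ⊢
    have hm : m = -l ^ 2 := by linear_combination this - m * h t - k t + hl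
    rw [hm]; simp
  exact ⟨ode a0 (fun t => (q t).1 ▸ b0 t) t, ode a1 (fun t => (q t).2.1 ▸ b1 t) t,
    ode a2 (fun t => (q t).2.2 ▸ b2 t) t⟩

lemma formula {γ : ℝ → W} (h : IsGeo N0 γ) {l m : ℝ}
    (hl : l ^ 2 = deriv γ 0 0 ^ 2 + deriv γ 0 1 ^ 2 + deriv γ 0 2 ^ 2)
    (hm : m ^ 2 = deriv γ 0 3 ^ 2 + deriv γ 0 4 ^ 2 + deriv γ 0 5 ^ 2) (t : ℝ) :
    (γ t 0 = cos (l * t) * γ 0 0 + S l t * deriv γ 0 0 ∧
      γ t 1 = cos (l * t) * γ 0 1 + S l t * deriv γ 0 1 ∧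
      γ t 2 = cos (l * t) * γ 0 2 + S l t * deriv γ 0 2) ∧
    (γ t 3 = cos (m * t) * γ 0 3 + S m t * deriv γ 0 3 ∧
      γ t 4 = cos (m * t) * γ 0 4 + S m t * deriv γ 0 4 ∧
      γ t 5 = cos (m * t) * γ 0 5 + S m t * deriv γ 0 5) := by
  have e := eq_of_geo0 h
  exact ⟨block (sm1 h.1 · 0) (sm1 h.1 · 1) (sm1 h.1 · 2) (sm2 h.1 · 0) (sm2 h.1 · 1) (sm2 h.1 · 2)
    (fun t => (h.2 t).1.1) (fun t => by
      obtain ⟨l, m, e⟩ := e t; exact ⟨l, by simp [e], by simp [e], by simp [e]⟩) hl t,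
    block (sm1 h.1 · 3) (sm1 h.1 · 4) (sm1 h.1 · 5) (sm2 h.1 · 3) (sm2 h.1 · 4) (sm2 h.1 · 5)
    (fun t => (h.2 t).1.2) (fun t => by
      obtain ⟨l, m, e⟩ := e t; exact ⟨m, by simp [e], by simp [e], by simp [e]⟩) hm t⟩

noncomputable def cur (a : ℝ) (x v : W) (b : ℝ) (t : ℝ) : W :=
  !₂[cos (a * t) * x 0 + sin (a * t) * v 0, cos (a * t) * x 1 + sin (a * t) * v 1,
    cos (a * t) * x 2 + sin (a * t) * v 2, cos (b * t) * x 3 + sin (b * t) * v 3,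
    cos (b * t) * x 4 + sin (b * t) * v 4, cos (b * t) * x 5 + sin (b * t) * v 5]

def scl (a b : ℝ) (v : W) : W := !₂[a * v 0, a * v 1, a * v 2, b * v 3, b * v 4, b * v 5]

lemma cur_smooth (a : ℝ) (x v : W) (b : ℝ) : ContDiff ℝ ∞ (cur a x v b) := by
  rw [contDiff_euclidean]
  intro j
  fin_cases j <;> simp [cur] <;> fun_prop

lemma cur_deriv (a : ℝ) (x v : W) (b : ℝ) :
    deriv (cur a x v b) = cur a (scl a b v) (scl (-a) (-b) x) b := by
  ext1 t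
  refine HasDerivAt.deriv (hd' fun j => ?_)
  have k : ∀ a p q : ℝ, HasDerivAt (fun t => cos (a * t) * p + sin (a * t) * q)
      (cos (a * t) * (a * q) + sin (a * t) * (-a * p)) t := fun a p q =>
    ((((hasDerivAt_id' t).const_mul a).cos.mul_const p).add
      (((hasDerivAt_id' t).const_mul a).sin.mul_const q)).congr_deriv (by ring)
  fin_cases j <;> exact k _ _ _

lemma cur_geoEq (a : ℝ) (x v : W) (b : ℝ) : GeoEq (cur a x v b) := by
  intro t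
  refine ⟨-a ^ 2, -b ^ 2, ?_⟩
  rw [cur_deriv, cur_deriv]
  ext j
  fin_cases j <;> simp [cur, scl] <;> ring

lemma cur_speed (a : ℝ) {x v : W} (b : ℝ) (hx : x ∈ N0) (hv : v ∈ N0)
    (h1 : x 0 * v 0 + x 1 * v 1 + x 2 * v 2 = 0) (h2 : x 3 * v 3 + x 4 * v 4 + x 5 * v 5 = 0) :
    (∀ t, cur a x v b t ∈ N0) ∧ energy (cur a x v b) = a ^ 2 + b ^ 2 := by
  constructor
  · intro t
    constructor
    · simp [cur]
      linear_combination cos (a * t) ^ 2 * hx.1 + sin (a * t) ^ 2 * hv.1 +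
        2 * cos (a * t) * sin (a * t) * h1 + cos_sq_add_sin_sq (a * t)
    · simp [cur]
      linear_combination cos (b * t) ^ 2 * hx.2 + sin (b * t) ^ 2 * hv.2 +
        2 * cos (b * t) * sin (b * t) * h2 + cos_sq_add_sin_sq (b * t)
  · have : ∀ t, ‖deriv (cur a x v b) t‖ ^ 2 = a ^ 2 + b ^ 2 := by
      intro t
      rw [cur_deriv, nrm]
      simp [cur, scl]
      linear_combination a ^ 2 * (sin (a * t) ^ 2 * hx.1 + cos (a * t) ^ 2 * hv.1 -
        2 * cos (a * t) * sin (a * t) * h1 + cos_sq_add_sin_sq (a * t)) +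
        b ^ 2 * (sin (b * t) ^ 2 * hx.2 + cos (b * t) ^ 2 * hv.2 -
        2 * cos (b * t) * sin (b * t) * h2 + cos_sq_add_sin_sq (b * t))
    simp [energy, this]

lemma arcs {x0 x1 x2 d0 d1 d2 r : ℝ} (h : x0 ^ 2 + x1 ^ 2 + x2 ^ 2 = 1)
    (o : x0 * d0 + x1 * d1 + x2 * d2 = 0) (r0 : 0 < r) (r1 : r < 1) :
    (r * (3 / 5 * x0 + 4 / 5 * x2)) ^ 2 < 1 ∧
    (1 / √(1 - (r * (3 / 5 * x0 + 4 / 5 * x2)) ^ 2) * (r * (3 / 5 * d0 + 4 / 5 * d2))) ^ 2 ≤
      d0 ^ 2 + d1 ^ 2 + d2 ^ 2 := by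
  obtain ⟨c, hc⟩ : ∃ c, c = 3 / 5 * x0 + 4 / 5 * x2 := ⟨_, rfl⟩
  obtain ⟨e, he⟩ : ∃ e, e = 3 / 5 * d0 + 4 / 5 * d2 := ⟨_, rfl⟩
  rw [← hc, ← he]
  have c1 : c ^ 2 ≤ 1 := by rw [hc]; nlinarith [sq_nonneg (4 / 5 * x0 - 3 / 5 * x2), sq_nonneg x1]
  have r2 : r ^ 2 < 1 := by nlinarith
  have c2 : (r * c) ^ 2 < 1 := by rw [mul_pow]; nlinarith [sq_nonneg c, sq_nonneg r]
  have cs : e ^ 2 ≤ (d0 ^ 2 + d1 ^ 2 + d2 ^ 2) * (1 - c ^ 2) := by
    have e1 : e = (3 / 5 - c * x0) * d0 + (-c * x1) * d1 + (4 / 5 - c * x2) * d2 := by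
      linear_combination he + c * o
    have e2 : 1 - c ^ 2 = (3 / 5 - c * x0) ^ 2 + (-c * x1) ^ 2 + (4 / 5 - c * x2) ^ 2 := by
      linear_combination -c ^ 2 * h - 2 * c * hc
    rw [e1, e2]
    nlinarith [sq_nonneg ((3 / 5 - c * x0) * d1 - (-c * x1) * d0),
      sq_nonneg ((3 / 5 - c * x0) * d2 - (4 / 5 - c * x2) * d0),
      sq_nonneg ((-c * x1) * d2 - (4 / 5 - c * x2) * d1)]
  refine ⟨c2, ?_⟩
  rw [mul_pow, div_pow, sq_sqrt (by linarith), one_pow, one_div, ← div_eq_inv_mul,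
    div_le_iff₀ (by linarith), mul_pow, mul_pow]
  have hD : 0 ≤ d0 ^ 2 + d1 ^ 2 + d2 ^ 2 := by positivity
  nlinarith [mul_le_mul_of_nonneg_left cs (sq_nonneg r), mul_nonneg hD (sub_nonneg.2 r2.le)]

noncomputable def pp : W := !₂[3 / 5, 0, 4 / 5, -3 / 5, 0, -4 / 5]

lemma lower {γ : ℝ → W} (h : ContDiff ℝ ∞ γ) (hN : ∀ t, γ t ∈ N0) (h0 : γ 0 ∈ M)
    (h1 : γ 1 = pp) : π ^ 2 / 2 ≤ energy γ := by
  have cd : Continuous (deriv γ) := h.continuous_deriv (by simp)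
  have key : ∀ r, 0 < r → r < 1 → π * (2 * arcsin r) - π ^ 2 / 2 ≤ energy γ := by
    intro r r0 r1
    have A := fun t => arcs (hN t).1 (orth (sm1 h · 0) (sm1 h · 1) (sm1 h · 2)
      (fun t => (hN t).1) t) r0 r1
    have B := fun t => arcs (hN t).2 (orth (sm1 h · 3) (sm1 h · 4) (sm1 h · 5)
      (fun t => (hN t).2) t) r0 r1
    have da : ∀ (i j : Fin 6) t, (r * (3 / 5 * γ t i + 4 / 5 * γ t j)) ^ 2 < 1 →
        HasDerivAt (fun t => arcsin (r * (3 / 5 * γ t i + 4 / 5 * γ t j)))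
        (1 / √(1 - (r * (3 / 5 * γ t i + 4 / 5 * γ t j)) ^ 2) *
          (r * (3 / 5 * deriv γ t i + 4 / 5 * deriv γ t j))) t := fun i j t ht =>
      (hasDerivAt_arcsin (fun e => by rw [e] at ht; norm_num at ht)
        (fun e => by rw [e] at ht; norm_num at ht)).comp t
        ((((sm1 h t i).const_mul _).add ((sm1 h t j).const_mul _)).const_mul r)
    have := intervalIntegral.sub_le_integral_of_hasDeriv_right_of_le (a := 0) (b := 1)
      (g := fun t => π * (arcsin (r * (3 / 5 * γ t 0 + 4 / 5 * γ t 2)) -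
        arcsin (r * (3 / 5 * γ t 3 + 4 / 5 * γ t 5))) - π ^ 2 / 2 * t)
      (φ := fun t => ‖deriv γ t‖ ^ 2) zero_le_one (by have := h.continuous; fun_prop)
      (fun t _ => ((((da 0 2 t (A t).1).sub (da 3 5 t (B t).1)).const_mul π).sub
        ((hasDerivAt_id' t).const_mul (π ^ 2 / 2))).hasDerivWithinAt)
      ((cd.norm.pow 2).continuousOn.integrableOn_Icc) fun t _ => by
        have a := (A t).2
        have b := (B t).2
        rw [nrm]
        generalize (1 / √(1 - (r * (3 / 5 * γ t 0 + 4 / 5 * γ t 2)) ^ 2) *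
          (r * (3 / 5 * deriv γ t 0 + 4 / 5 * deriv γ t 2))) = u at a ⊢
        generalize (1 / √(1 - (r * (3 / 5 * γ t 3 + 4 / 5 * γ t 5)) ^ 2) *
          (r * (3 / 5 * deriv γ t 3 + 4 / 5 * deriv γ t 5))) = w at b ⊢
        nlinarith [sq_nonneg (u - π / 2), sq_nonneg (w + π / 2)]
    refine le_trans (le_of_eq ?_) this
    rw [h1, h0.1.2.1, h0.1.2.2, h0.2.1]
    have p1 : r * (3 / 5 * pp 0 + 4 / 5 * pp 2) = r := by simp [pp]; ring
    have p2 : r * (3 / 5 * pp 3 + 4 / 5 * pp 5) = -r := by simp [pp]; ring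
    rw [p1, p2, arcsin_neg]
    ring
  have ht : Tendsto (fun r => π * (2 * arcsin r) - π ^ 2 / 2) (𝓝[<] 1)
      (𝓝 (π * (2 * arcsin 1) - π ^ 2 / 2)) :=
    (Continuous.tendsto (by fun_prop) 1).mono_left nhdsWithin_le_nhds
  have := le_of_tendsto ht (mem_of_superset (Ioo_mem_nhdsLT zero_lt_one) fun r hr => key r hr.1 hr.2)
  rw [arcsin_one] at this
  linarith

noncomputable def gam (e : ℝ) : ℝ → W := cur (π / 2) !₂[0, e, 0, 0, e, 0] pp (π / 2)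

lemma gam_crit {e : ℝ} (he : e ^ 2 = 1) : gam e ∈ Crit N0 M pp 0 := by
  have hp : pp ∈ N0 := by constructor <;> simp [pp] <;> norm_num
  obtain ⟨a, b⟩ := cur_speed (π / 2) (x := !₂[0, e, 0, 0, e, 0]) (π / 2)
    (by constructor <;> simp [he]) hp (by simp [pp]) (by simp [pp])
  have h0 : gam e 0 ∈ M := ⟨⟨a 0, by simp [gam, cur], by simp [gam, cur]⟩, by simp [gam, cur],
    by simp [gam, cur]⟩
  have hn : NormalGeo N0 M (gam e) := ⟨geo_of_eq subset_rfl (cur_smooth ..) a (cur_geoEq _ _ _ _), h0,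
    (normal_iff h0).2 (by rw [gam, cur_deriv]; simp [cur, scl, pp]; right; ring)⟩
  have h1 : gam e 1 = pp := by
    ext j; fin_cases j <;> simp [gam, cur]
  refine ⟨hn, h1, idx_ge0 hn h1, idx_zero (fun Γ s1 _ s3 s4 => Eventually.of_forall fun r => ?_) 0⟩
  have := lower (γ := Γ r) (s1.comp (f := fun t : ℝ => (r, t)) (by fun_prop)) (s3 r) (s4 r).1
    (s4 r).2
  rw [gam, b]; linarith

end Pool.Agent.H.MP_106964_gt
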