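import Mathlib
import Pool.Agent.H.MP_106964_gt.G
set_option autoImplicit false
namespace Pool.Agent.H.MP_106964_gt
open Set Filter Topology Real
open scoped ContDiff RealInnerProductSpace

lemma alg {x0 x1 p0 p1 l m l' m' s1 s2 s1' s2' a a' cl sl cm sm : ℝ} (hx : x0 ^ 2 + x1 ^ 2 = 1)
    (hp : x0 * p0 + x1 * p1 = 0) (l0 : 0 < l) (m0 : 0 < m) (n1 : s1 ≠ 0) (n2 : s2 ≠ 0)
    (t1 : cl ^ 2 + sl ^ 2 = 1) (t2 : cm ^ 2 + sm ^ 2 = 1) (e : l = m → cl = cm)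
    (r1 : l * s1 = sl) (r2 : m * s2 = sm) (c1 : 3 / 5 * x0 = cl) (c2 : -(3 / 5) * x0 = cm)
    (b1 : -(3 / 5) * x1 = s1 * a) (b2 : 3 / 5 * x1 = s2 * -a)
    (d1 : 3 / 5 * p0 = -sl * l') (d2 : -(3 / 5) * p0 = -sm * m')
    (f1 : -(3 / 5) * p1 = s1' * a + s1 * a') (f2 : 3 / 5 * p1 = s2' * -a + s2 * -a')
    (g1 : l' * s1 + l * s1' = cl * l') (g2 : m' * s2 + m * s2' = cm * m') :
    p0 = 0 ∧ p1 = 0 := by
  have key : s1 = s2 → l = m ∧ x0 = 0 := by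
    intro h
    subst h
    have h1 : s1 ^ 2 * (l ^ 2 - m ^ 2) = 0 := by
      rw [← r1, ← c1] at t1
      rw [← r2, ← c2] at t2
      linear_combination t1 - t2
    have h2 : l = m := by
      have := (mul_eq_zero.1 h1).resolve_left (pow_ne_zero 2 n1)
      exact (pow_left_inj₀ l0.le m0.le two_ne_zero).1 (by linarith)
    exact ⟨h2, by have := e h2; linarith⟩
  by_cases h : x1 = 0
  · subst h
    have a0 : a = 0 := (mul_eq_zero.1 (by linarith : s1 * a = 0)).resolve_left n1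
    subst a0
    have x00 : x0 ≠ 0 := fun h => by rw [h] at hx; norm_num at hx
    have h3 : (s1 - s2) * a' = 0 := by linarith
    have h4 : a' = 0 := (mul_eq_zero.1 h3).resolve_left fun h => x00 (key (by linarith)).2
    subst h4
    exact ⟨(mul_eq_zero.1 (by linarith : x0 * p0 = 0)).resolve_left x00, by linarith⟩
  · have a0 : a ≠ 0 := fun h' => h (by rw [h'] at b1; linarith)
    have h3 : s1 = s2 := mul_right_cancel₀ a0 (by linarith)
    obtain ⟨h4, h5⟩ := key h3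
    subst h3 h4 h5
    have c0 : cl = 0 := by linarith
    have c0' : cm = 0 := by linarith
    subst c0 c0'
    have h6 : sl = sm := by linarith
    subst h6
    have sl0 : sl ≠ 0 := fun h => by rw [h] at t1; norm_num at t1
    have h7 : m' = -l' := mul_left_cancel₀ sl0 (by linarith)
    subst h7
    have h8 : a * (s1 * l') = 0 := by linear_combination (a / 2) * g1 - (a / 2) * g2 + (l / 2) * (f1 + f2)
    have h9 : l' = 0 := (mul_eq_zero.1 ((mul_eq_zero.1 h8).resolve_left a0)).resolve_left n1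
    subst h9
    exact ⟨by linarith, (mul_eq_zero.1 (by linarith : x1 * p1 = 0)).resolve_left h⟩

lemma der_eq {f g : ℝ → ℝ} {a b : ℝ} (hf : HasDerivAt f a 0) (hg : HasDerivAt g b 0)
    (h : ∀ s, f s = g s) : a = b :=
  hf.unique (hg.congr_of_eventuallyEq (Eventually.of_forall h))

lemma lam {v0 v1 v2 : ℝ → ℝ} {w0 w1 w2 : ℝ} (h0 : HasDerivAt v0 w0 0) (h1 : HasDerivAt v1 w1 0)
    (h2 : HasDerivAt v2 w2 0) (hn : v2 0 ≠ 0) : ∃ (l : ℝ → ℝ) (l' s' : ℝ),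
      (∀ s, l s = √(v0 s ^ 2 + v1 s ^ 2 + v2 s ^ 2)) ∧ 0 < l 0 ∧ HasDerivAt l l' 0 ∧
      HasDerivAt (fun s => S (l s) 1) s' 0 := by
  have hp : 0 < v0 0 ^ 2 + v1 0 ^ 2 + v2 0 ^ 2 := by positivity
  have hl := (((h0.pow 2).add (h1.pow 2)).add (h2.pow 2)).sqrt hp.ne'
  have h3 : 0 < √(v0 0 ^ 2 + v1 0 ^ 2 + v2 0 ^ 2) := sqrt_pos.2 hp
  refine ⟨fun s => √(v0 s ^ 2 + v1 s ^ 2 + v2 s ^ 2), _, _, fun _ => rfl, h3, hl,
    (hl.sin.div hl h3.ne').congr_of_eventuallyEq ?_⟩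
  refine (hl.continuousAt.eventually_ne h3.ne').mono fun s hs => ?_
  simp only [S, mul_one]
  exact if_neg hs

theorem not_focal : ¬ Focal N0 M pp := by
  rintro ⟨Γ, w, hG, h1, hw, hD, hY⟩
  have hX : ∀ j, HasDerivAt (fun s => Γ s 0 j) (w.1 j) 0 := hd
    ((ContinuousLinearMap.fst ℝ W W).hasFDerivAt.comp_hasDerivAt 0 hD)
  have hV : ∀ j, HasDerivAt (fun s => deriv (Γ s) 0 j) (w.2 j) 0 := hd
    ((ContinuousLinearMap.snd ℝ W W).hasFDerivAt.comp_hasDerivAt 0 hD)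
  have hy : ∀ j, HasDerivAt (fun s => Γ s 1 j) 0 0 := hd hY
  have F := fun s => formula (hG s).1 (sq_sqrt (by positivity)) (sq_sqrt (by positivity)) 1
  have x2 := fun s => (hG s).2.1.1.2.1
  have x5 := fun s => (hG s).2.1.1.2.2
  have x3 := fun s => (hG s).2.1.2.1.symm
  have x4 := fun s => (hG s).2.1.2.2.symm
  have xx : ∀ s, Γ s 0 0 ^ 2 + Γ s 0 1 ^ 2 = 1 := fun s => by
    have := (hG s).2.1.1.1.1; rw [x2] at this; linarith
  have o1 : ∀ s, Γ s 0 0 * deriv (Γ s) 0 0 + Γ s 0 1 * deriv (Γ s) 0 1 = 0 := fun s => by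
    have := orth (sm1 (hG s).1.1 · 0) (sm1 (hG s).1.1 · 1) (sm1 (hG s).1.1 · 2)
      (fun t => ((hG s).1.2 t).1.1) 0
    rw [x2] at this; linarith
  have o2 : ∀ s, Γ s 0 0 * deriv (Γ s) 0 3 + Γ s 0 1 * deriv (Γ s) 0 4 = 0 := fun s => by
    have := orth (sm1 (hG s).1.1 · 3) (sm1 (hG s).1.1 · 4) (sm1 (hG s).1.1 · 5)
      (fun t => ((hG s).1.2 t).1.2) 0
    rw [x5, x3, x4] at this; linarith
  have nn := fun s => (normal_iff (hG s).2.1).1 (hG s).2.2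
  simp only [x2, x3, x4, x5, mul_zero, zero_add, mul_one] at F
  have y0 : Γ 0 1 0 = 3 / 5 := by rw [h1]; simp [pp]
  have y1 : Γ 0 1 1 = 0 := by rw [h1]; simp [pp]
  have y2 : Γ 0 1 2 = 4 / 5 := by rw [h1]; simp [pp]
  have y3 : Γ 0 1 3 = -3 / 5 := by rw [h1]; simp [pp]
  have y4 : Γ 0 1 4 = 0 := by rw [h1]; simp [pp]
  have y5 : Γ 0 1 5 = -4 / 5 := by rw [h1]; simp [pp]
  have q1 := ne_zero_and_ne_zero_of_mul (((F 0).1.2.2.symm.trans y2).trans_ne (by norm_num))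
  have q2 := ne_zero_and_ne_zero_of_mul (((F 0).2.2.2.symm.trans y5).trans_ne (by norm_num))
  obtain ⟨l, l', s1', el, l0, dl, ds1⟩ := lam (hV 0) (hV 1) (hV 2) q1.2
  obtain ⟨m, m', s2', em, m0, dm, ds2⟩ := lam (hV 3) (hV 4) (hV 5) q2.2
  simp only [← el, ← em] at F q1 q2
  have da := ((hX 1).neg.mul (hV 0)).add ((hX 0).mul (hV 1))
  have R1 : ∀ s, Γ s 0 0 * Γ s 1 0 + Γ s 0 1 * Γ s 1 1 = cos (l s) := fun s => by
    rw [(F s).1.1, (F s).1.2.1]; linear_combination cos (l s) * xx s + S (l s) 1 * o1 s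
  have R1' : ∀ s, Γ s 0 0 * Γ s 1 3 + Γ s 0 1 * Γ s 1 4 = cos (m s) := fun s => by
    rw [(F s).2.1, (F s).2.2.1]; linear_combination cos (m s) * xx s + S (m s) 1 * o2 s
  have R2 : ∀ s, -Γ s 0 1 * Γ s 1 0 + Γ s 0 0 * Γ s 1 1 =
      S (l s) 1 * (-Γ s 0 1 * deriv (Γ s) 0 0 + Γ s 0 0 * deriv (Γ s) 0 1) := fun s => by
    rw [(F s).1.1, (F s).1.2.1]; ring
  have R2' : ∀ s, -Γ s 0 1 * Γ s 1 3 + Γ s 0 0 * Γ s 1 4 =
      S (m s) 1 * -(-Γ s 0 1 * deriv (Γ s) 0 0 + Γ s 0 0 * deriv (Γ s) 0 1) := fun s => by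
    rw [(F s).2.1, (F s).2.2.1]; linear_combination S (m s) 1 * nn s
  have R3 : ∀ s, l s * S (l s) 1 = sin (l s) := fun s => by rw [S_mul, mul_one]
  have R3' : ∀ s, m s * S (m s) 1 = sin (m s) := fun s => by rw [S_mul, mul_one]
  have D0 := der_eq (((hX 0).pow 2).add ((hX 1).pow 2)) (hasDerivAt_const _ _) xx
  have D1 := der_eq (((hX 0).mul (hy 0)).add ((hX 1).mul (hy 1))) dl.cos R1
  have D1' := der_eq (((hX 0).mul (hy 3)).add ((hX 1).mul (hy 4))) dm.cos R1'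
  have D2 := der_eq (((hX 1).neg.mul (hy 0)).add ((hX 0).mul (hy 1))) (ds1.mul da) R2
  have D2' := der_eq (((hX 1).neg.mul (hy 3)).add ((hX 0).mul (hy 4))) (ds2.mul da.neg) R2'
  have D3 := der_eq (dl.mul ds1) dl.sin R3
  have D3' := der_eq (dm.mul ds2) dm.sin R3'
  have E1 := R1 0
  have E1' := R1' 0
  have E2 := R2 0
  have E2' := R2' 0
  simp only [y0, y1, y3, y4, Pi.neg_apply, Pi.add_apply, Pi.mul_apply] at D1 D1' D2 D2' E1 E1' E2 E2'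
  obtain ⟨p0, p1⟩ := alg (p0 := w.1 0) (p1 := w.1 1) (l' := l') (m' := m') (s1' := s1')
    (s2' := s2') (a := -Γ 0 0 1 * deriv (Γ 0) 0 0 + Γ 0 0 0 * deriv (Γ 0) 0 1)
    (a' := -w.1 1 * deriv (Γ 0) 0 0 + -Γ 0 0 1 * w.2 0 + (w.1 0 * deriv (Γ 0) 0 1 + Γ 0 0 0 * w.2 1))
    (xx 0) (by simp at D0; linarith) l0 m0 q1.1 q2.1 (cos_sq_add_sin_sq (l 0))
    (cos_sq_add_sin_sq (m 0)) (fun h => by rw [h]) (R3 0) (R3' 0) (by linarith) (by linarith)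
    (by linarith) (by linarith) (by linarith) (by linarith) (by linarith) (by linarith) D3 D3'
  have p2 : w.1 2 = 0 := der_eq (hX 2) (hasDerivAt_const _ _) x2
  have p5 : w.1 5 = 0 := der_eq (hX 5) (hasDerivAt_const _ _) x5
  have p3 : w.1 3 = 0 := (der_eq (hX 3) (hX 0) x3).trans p0
  have p4 : w.1 4 = 0 := (der_eq (hX 4) (hX 1) x4).trans p1
  have sl : sin (l 0) ≠ 0 := R3 0 ▸ mul_ne_zero l0.ne' q1.1
  have sm : sin (m 0) ≠ 0 := R3' 0 ▸ mul_ne_zero m0.ne' q2.1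
  have l1 : l' = 0 := (mul_eq_zero.1 (by rw [p0, p1] at D1; linarith : sin (l 0) * l' = 0)).resolve_left sl
  have m1 : m' = 0 := (mul_eq_zero.1 (by rw [p0, p1] at D1'; linarith : sin (m 0) * m' = 0)).resolve_left sm
  have u1 : s1' = 0 := (mul_eq_zero.1 (by rw [l1] at D3; linarith : l 0 * s1' = 0)).resolve_left l0.ne'
  have u2 : s2' = 0 := (mul_eq_zero.1 (by rw [m1] at D3'; linarith : m 0 * s2' = 0)).resolve_left m0.ne'
  subst l1 m1 u1 u2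
  have k0 := der_eq (hy 0) ((dl.cos.mul (hX 0)).add (ds1.mul (hV 0))) fun s => (F s).1.1
  have k1 := der_eq (hy 1) ((dl.cos.mul (hX 1)).add (ds1.mul (hV 1))) fun s => (F s).1.2.1
  have k2 := der_eq (hy 2) (ds1.mul (hV 2)) fun s => (F s).1.2.2
  have k3 := der_eq (hy 3) ((dm.cos.mul (hX 0)).add (ds2.mul (hV 3))) fun s => (F s).2.1
  have k4 := der_eq (hy 4) ((dm.cos.mul (hX 1)).add (ds2.mul (hV 4))) fun s => (F s).2.2.1
  have k5 := der_eq (hy 5) (ds2.mul (hV 5)) fun s => (F s).2.2.2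
  simp [p0, p1, q1.1, q2.1] at k0 k1 k2 k3 k4 k5
  refine hw (Prod.ext ?_ ?_) <;> ext j <;> fin_cases j <;> assumption

end Pool.Agent.H.MP_106964_gt
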