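import Mathlib
import Pool.Agent.H.MP_106964_gt.F
set_option autoImplicit false
namespace Pool.Agent.H.MP_106964_gt
open Set Filter Topology Real unitInterval
open scoped ContDiff RealInnerProductSpace

lemma joined_of {X : Type} [TopologicalSpace X] {A : Set C(I, X)} {a b : C(I, X)}
    (K : I × I → X) (hK : Continuous K) (h0 : ∀ t, K (0, t) = a t) (h1 : ∀ t, K (1, t) = b t)
    (h : ∀ (s : I) (c : C(I, X)), (∀ t, c t = K (s, t)) → c ∈ A) : JoinedIn A a b :=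
  ⟨⟨(⟨K, hK⟩ : C(I × I, X)).curry, ContinuousMap.ext h0, ContinuousMap.ext h1⟩,
    fun s => h s _ fun _ => rfl⟩

abbrev E3 := EuclideanSpace ℝ (Fin 3)

def Q (a b : E3) : Set C(I, E3) := {c | (∀ t, ‖c t‖ = 1) ∧ c 0 = a ∧ c 1 = b}

lemma approx {a b : E3} {α : C(I, E3)} (hα : α ∈ Q a b) : ∃ (g : ℝ → E3) (β : C(I, E3)),
    ContDiff ℝ 1 g ∧ β ∈ Q a b ∧ JoinedIn (Q a b) α β ∧ ∀ t : I, ∃ r : ℝ, β t = r • g t := by
  obtain ⟨g, hg, h1, -⟩ := (α.continuous.comp (continuous_projIcc (h := zero_le_one))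
    ).exists_contDiff_approx 1 (continuous_const (y := (1 / 2 : ℝ))) fun _ => by norm_num
  obtain ⟨l, hl⟩ : ∃ l : ℝ → E3, l = fun t => g t + (1 - t) • (a - g 0) + t • (b - g 1) := ⟨_, rfl⟩
  have hg' : ContDiff ℝ 1 g := hg
  have lc : ContDiff ℝ 1 l := by rw [hl]; fun_prop
  have h2 : ∀ t : I, ‖g t - α t‖ < 1 / 2 := fun t => by
    simpa [dist_eq_norm, projIcc_val] using h1 t
  have h3 : ∀ t : I, ‖l t - α t‖ < 1 := fun t => by
    have e : l t - α t = (g t - α t) - (1 - t : ℝ) • (g 0 - a) - (t : ℝ) • (g 1 - b) := by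
      rw [hl]; module
    have a1 : ‖g 0 - a‖ < 1 / 2 := hα.2.1 ▸ h2 0
    have a2 : ‖g 1 - b‖ < 1 / 2 := hα.2.2 ▸ h2 1
    have a3 := norm_sub_le ((g t - α t) - (1 - t : ℝ) • (g 0 - a)) ((t : ℝ) • (g 1 - b))
    have a4 := norm_sub_le (g t - α t) ((1 - t : ℝ) • (g 0 - a))
    rw [norm_smul, Real.norm_of_nonneg t.2.1] at a3
    rw [norm_smul, Real.norm_of_nonneg (sub_nonneg.2 t.2.2)] at a4
    rw [e]
    nlinarith [h2 t, t.2.1, t.2.2]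
  have h4 : ∀ q : I × I, α q.2 + (q.1 : ℝ) • (l q.2 - α q.2) ≠ 0 := fun q h => by
    have := congrArg norm (eq_neg_of_add_eq_zero_left h)
    rw [norm_neg, norm_smul, Real.norm_of_nonneg q.1.2.1, hα.1] at this
    nlinarith [h3 q.2, q.1.2.1, q.1.2.2, norm_nonneg (l q.2 - α q.2)]
  have c0 := lc.continuous
  have c1 : Continuous fun q : I × I => α q.2 + (q.1 : ℝ) • (l q.2 - α q.2) := by fun_prop
  have c2 : Continuous fun q : I × I => ‖α q.2 + (q.1 : ℝ) • (l q.2 - α q.2)‖⁻¹ •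
      (α q.2 + (q.1 : ℝ) • (l q.2 - α q.2)) :=
    (c1.norm.inv₀ fun q => norm_ne_zero_iff.2 (h4 q)).smul c1
  have l0 : l 0 = a := by simp [hl]
  have l1 : l 1 = b := by simp [hl]
  have J := joined_of (A := Q a b) (a := α) (b := ⟨_, c2.comp (Continuous.prodMk_right 1)⟩) _ c2
    (fun t => by simp [hα.1]) (fun _ => rfl) fun s c hc =>
      ⟨fun t => by rw [hc]; exact norm_smul_inv_norm (h4 (s, t)),
        by rw [hc]; simp [l0, ← hα.2.1, hα.1], by rw [hc]; simp [l1, ← hα.2.2, hα.1]⟩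
  exact ⟨l, _, lc, J.target_mem, J, fun t => ⟨‖l t‖⁻¹, by simp [-smul_add]⟩⟩

lemma avoid {a b z : E3} (hz : ‖z‖ = 1) {α β : C(I, E3)} (hα : α ∈ Q a b) (hβ : β ∈ Q a b)
    (h1 : ∀ t, α t ≠ z) (h2 : ∀ t, β t ≠ z) : JoinedIn (Q a b) α β := by
  have pl : ∀ x : E3, ‖x‖ = 1 → x ≠ z → ⟪z, (‖x - z‖ ^ 2)⁻¹ • (x - z)⟫ = -1 / 2 := by
    intro x hx hne
    have h3 : ‖x - z‖ ^ 2 ≠ 0 := pow_ne_zero 2 (norm_ne_zero_iff.2 (sub_ne_zero.2 hne))
    rw [inner_smul_right, inner_sub_right, real_inner_self_eq_norm_sq, hz, inv_mul_eq_div,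
      div_eq_iff h3, norm_sub_sq_real, hx, hz, real_inner_comm]
    ring
  have iv : ∀ x : E3, x ≠ z → z + (‖(‖x - z‖ ^ 2)⁻¹ • (x - z)‖ ^ 2)⁻¹ •
      (‖x - z‖ ^ 2)⁻¹ • (x - z) = x := by
    intro x hne
    have h3 : ‖x - z‖ ≠ 0 := norm_ne_zero_iff.2 (sub_ne_zero.2 hne)
    rw [norm_smul, smul_smul, norm_inv, norm_pow, norm_norm,
      show (((‖x - z‖ ^ 2)⁻¹ * ‖x - z‖) ^ 2)⁻¹ * (‖x - z‖ ^ 2)⁻¹ = 1 by field_simp]
    simp
  have cs : ∀ γ : C(I, E3), (∀ t, γ t ≠ z) →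
      Continuous fun t => (‖γ t - z‖ ^ 2)⁻¹ • (γ t - z) := fun γ h =>
    (Continuous.inv₀ (by fun_prop) fun t =>
      pow_ne_zero 2 (norm_ne_zero_iff.2 (sub_ne_zero.2 (h t)))).smul (by fun_prop)
  obtain ⟨y, hy⟩ : ∃ y : I × I → E3, y = fun q => (1 - q.1 : ℝ) • (‖α q.2 - z‖ ^ 2)⁻¹ • (α q.2 - z)
      + (q.1 : ℝ) • (‖β q.2 - z‖ ^ 2)⁻¹ • (β q.2 - z) := ⟨_, rfl⟩
  have c1 := cs α h1
  have c2 := cs β h2
  have cy : Continuous y := by
    rw [hy]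
    exact ((by fun_prop : Continuous fun q : I × I => (1 - q.1 : ℝ)).smul
      (c1.comp continuous_snd)).add ((by fun_prop : Continuous fun q : I × I => (q.1 : ℝ)).smul
      (c2.comp continuous_snd))
  have py : ∀ q, ⟪z, y q⟫ = -1 / 2 := fun q => by
    rw [hy, inner_add_right, inner_smul_right, inner_smul_right z _ (q.1 : ℝ), pl _ (hα.1 _) (h1 _),
      pl _ (hβ.1 _) (h2 _)]
    ring
  have ny : ∀ q, ‖y q‖ ^ 2 ≠ 0 := fun q h => by
    have := py q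
    rw [norm_eq_zero.1 (pow_eq_zero_iff two_ne_zero |>.1 h), inner_zero_right] at this
    norm_num at this
  refine joined_of (fun q => z + (‖y q‖ ^ 2)⁻¹ • y q)
    (continuous_const.add (((cy.norm.pow 2).inv₀ ny).smul cy)) (fun t => ?_) (fun t => ?_)
    fun s c hc => ⟨fun t => ?_, ?_, ?_⟩
  · simpa [hy] using iv _ (h1 t)
  · simpa [hy] using iv _ (h2 t)
  · rw [hc, ← pow_left_inj₀ (norm_nonneg _) zero_le_one two_ne_zero, norm_add_sq_real, hz,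
      inner_smul_right, py, norm_smul, norm_inv, norm_pow, norm_norm]
    have := ny (s, t)
    have h5 : ‖y (s, t)‖ ≠ 0 := fun h => this (by simp [h])
    field_simp; ring
  · rw [hc, hy]
    simp only [hα.2.1, hβ.2.1, ← add_smul, sub_add_cancel, one_smul]
    exact iv _ (hα.2.1 ▸ h1 0)
  · rw [hc, hy]
    simp only [hα.2.2, hβ.2.2, ← add_smul, sub_add_cancel, one_smul]
    exact iv _ (hα.2.2 ▸ h1 1)

lemma Q_conn {a b : E3} {α β : C(I, E3)} (hα : α ∈ Q a b) (hβ : β ∈ Q a b) :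
    JoinedIn (Q a b) α β := by
  obtain ⟨g, α', hg, a1, a2, a3⟩ := approx hα
  obtain ⟨k, β', hk, b1, b2, b3⟩ := approx hβ
  have d1 := ContDiff.dimH_range_le (f := fun q : ℝ × ℝ => q.1 • g q.2) (by fun_prop)
  have d2 := ContDiff.dimH_range_le (f := fun q : ℝ × ℝ => q.1 • k q.2) (by fun_prop)
  have d3 : Dense (range (fun q : ℝ × ℝ => q.1 • g q.2) ∪ range fun q : ℝ × ℝ => q.1 • k q.2)ᶜ := by
    refine dense_compl_of_dimH_lt_finrank ?_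
    rw [dimH_union]
    refine (max_le d1 d2).trans_lt ?_
    simp
    norm_cast
  obtain ⟨z, hz⟩ := d3.nonempty
  simp only [mem_compl_iff, mem_union, not_or] at hz
  have z0 : z ≠ 0 := fun h => hz.1 ⟨(0, 0), by simp [h]⟩
  have n0 : ‖z‖ ≠ 0 := norm_ne_zero_iff.2 z0
  refine a2.trans ((avoid (norm_smul_inv_norm (𝕜 := ℝ) z0) a1 b1 (fun t h => hz.1 ?_)
    fun t h => hz.2 ?_).trans b2.symm)
  · obtain ⟨r, hr⟩ := a3 t
    exact ⟨(‖z‖ * r, t), by simp only [mul_smul, ← hr, h]; simp [n0]⟩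
  · obtain ⟨r, hr⟩ := b3 t
    exact ⟨(‖z‖ * r, t), by simp only [mul_smul, ← hr, h]; simp [n0]⟩

lemma ang {x y : ℝ} (h : x ^ 2 + y ^ 2 = 1) : ∃ θ, cos θ = x ∧ sin θ = y := by
  have h1 : ‖(⟨x, y⟩ : ℂ)‖ = 1 := by
    rw [Complex.norm_eq_sqrt_sq_add_sq, h, sqrt_one]
  refine ⟨Complex.arg ⟨x, y⟩, ?_, ?_⟩
  · rw [Complex.cos_arg (fun e => by rw [e] at h1; simp at h1), h1, div_one]
  · rw [Complex.sin_arg, h1, div_one]

noncomputable def rz (θ : ℝ) (x : W) : W :=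
  !₂[cos θ * x 0 + sin θ * x 1, cos θ * x 1 - sin θ * x 0, x 2,
    cos θ * x 3 + sin θ * x 4, cos θ * x 4 - sin θ * x 3, x 5]

lemma cont6 {X : Type} [TopologicalSpace X] {f : X → W} (h : ∀ j, Continuous fun x => f x j) :
    Continuous f := (PiLp.continuous_toLp 2 _).comp (continuous_pi h)

lemma nrm3 (x : E3) : ‖x‖ = 1 ↔ x 0 ^ 2 + x 1 ^ 2 + x 2 ^ 2 = 1 := by
  rw [EuclideanSpace.norm_eq, sqrt_eq_one]; simp [Fin.sum_univ_three]

lemma to_base {c : C(I, W)} (hc : c ∈ PathSp N0 M pp) : ∃ d, d 0 = !₂[1, 0, 0, 1, 0, 0] ∧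
    JoinedIn (PathSp N0 M pp) c d := by
  obtain ⟨h1, ⟨⟨h0, h2, h5⟩, h3, h4⟩, h6⟩ := hc
  have xx : c 0 0 ^ 2 + c 0 1 ^ 2 = 1 := by have := h0.1; rw [h2] at this; linarith
  obtain ⟨θ, a, b⟩ := ang xx
  have ck : Continuous fun q : I × I => rz (q.1 * (1 - q.2) * θ) (c q.2) :=
    cont6 fun j => by fin_cases j <;> simp [rz] <;> fun_prop
  have hr : ∀ φ x, x ∈ N0 → rz φ x ∈ N0 := fun φ x hx =>
    ⟨by simp [rz]; linear_combination (x 0 ^ 2 + x 1 ^ 2) * cos_sq_add_sin_sq φ + hx.1,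
      by simp [rz]; linear_combination (x 3 ^ 2 + x 4 ^ 2) * cos_sq_add_sin_sq φ + hx.2⟩
  have r0 : ∀ x, rz 0 x = x := fun x => by ext j; fin_cases j <;> simp [rz]
  refine ⟨⟨_, ck.comp (Continuous.prodMk_right 1)⟩, ?_, joined_of _ ck (fun t => by simp [r0])
    (fun _ => rfl) fun s d hd => ⟨fun t => hd t ▸ hr _ _ (h1 t), ?_, by rw [hd]; simp [r0, h6]⟩⟩
  · ext j
    fin_cases j <;> simp [rz, a, b, ← h3, ← h4, h2, h5] <;> linarith
  · rw [hd]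
    exact ⟨⟨hr _ _ (h1 0), by simp [rz, h2], by simp [rz, h5]⟩, by simp [rz, h3, h4],
      by simp [rz, h3, h4]⟩

lemma P_conn {c d : C(I, W)} (hc : c ∈ PathSp N0 M pp) (hd : d ∈ PathSp N0 M pp) :
    JoinedIn (PathSp N0 M pp) c d := by
  obtain ⟨c', c0, c1⟩ := to_base hc
  obtain ⟨d', d0, d1⟩ := to_base hd
  refine c1.trans (JoinedIn.trans ?_ d1.symm)
  have k1 : Continuous fun x : W => (!₂[x 0, x 1, x 2] : E3) := by fun_prop
  have k2 : Continuous fun x : W => (!₂[x 3, x 4, x 5] : E3) := by fun_prop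
  have m1 : ∀ e ∈ PathSp N0 M pp, e 0 = !₂[1, 0, 0, 1, 0, 0] →
      (ContinuousMap.mk _ k1).comp e ∈ Q !₂[1, 0, 0] !₂[3 / 5, 0, 4 / 5] := fun e he e0 =>
    ⟨fun t => (nrm3 _).2 (he.1 t).1, by simp [e0], by simp [he.2.2, pp]⟩
  have m2 : ∀ e ∈ PathSp N0 M pp, e 0 = !₂[1, 0, 0, 1, 0, 0] →
      (ContinuousMap.mk _ k2).comp e ∈ Q !₂[1, 0, 0] !₂[-3 / 5, 0, -4 / 5] := fun e he e0 =>
    ⟨fun t => (nrm3 _).2 (he.1 t).2, by simp [e0], by simp [he.2.2, pp]⟩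
  obtain ⟨γ, hγ⟩ := Q_conn (m1 _ c1.target_mem c0) (m1 _ d1.target_mem d0)
  obtain ⟨δ, hδ⟩ := Q_conn (m2 _ c1.target_mem c0) (m2 _ d1.target_mem d0)
  have g1 : Continuous fun q : I × I => γ q.1 q.2 := by fun_prop
  have g2 : Continuous fun q : I × I => δ q.1 q.2 := by fun_prop
  refine joined_of (fun q => !₂[γ q.1 q.2 0, γ q.1 q.2 1, γ q.1 q.2 2, δ q.1 q.2 0, δ q.1 q.2 1,
    δ q.1 q.2 2]) (cont6 fun j => by fin_cases j <;> simp <;> fun_prop) (fun t => ?_) (fun t => ?_)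
    fun s e he => ⟨fun t => ?_, ?_, ?_⟩
  · ext j; fin_cases j <;> simp
  · ext j; fin_cases j <;> simp
  · rw [he]; exact ⟨(nrm3 _).1 ((hγ s).1 t), (nrm3 _).1 ((hδ s).1 t)⟩
  · rw [he]
    simp [(hγ s).2.1, (hδ s).2.1, M, N1, N0]
  · rw [he]
    simp [(hγ s).2.2, (hδ s).2.2, pp]

theorem not_taut : ¬ Taut N0 M := by
  rintro ⟨F, _, h⟩
  have hp : pp ∈ N0 := by constructor <;> simp [pp] <;> norm_num
  have h1 := h pp hp not_focal 0
  rw [betti0] at h1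
  have h2 : Subsingleton (ZerothHomotopy (PathSp N0 M pp)) := ⟨by
    rintro ⟨a⟩ ⟨b⟩
    exact Quotient.sound (P_conn a.2 b.2).joined_subtype⟩
  have h3 := Cardinal.le_one_iff_subsingleton.1 (h1.le.trans
    (Cardinal.le_one_iff_subsingleton.2 h2))
  have h4 := h3.elim ⟨_, gam_crit (e := 1) (by simp)⟩ ⟨_, gam_crit (e := -1) (by simp)⟩
  have h5 := congrArg (fun γ : Crit N0 M pp 0 => γ.1 0 1) h4
  simp [gam, cur] at h5
  norm_num at h5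

end Pool.Agent.H.MP_106964_gt
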