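import Mathlib
import Pool.Agent.H.MP_106964_gt.P
set_option autoImplicit false
namespace Pool.Agent.H.MP_106964_gt
open Set Filter Topology Real unitInterval
open scoped ContDiff RealInnerProductSpace

noncomputable def tp (a b : ℝ) : W := !₂[cos a, sin a, 0, cos b, sin b, 0]

lemma tp_N1 (a b : ℝ) : tp a b ∈ N1 := ⟨⟨by simp [tp], by simp [tp]⟩, by simp [tp], by simp [tp]⟩

lemma tp_M {a b : ℝ} {k : ℤ} (h : b = a + k * (2 * π)) : tp a b ∈ M :=
  ⟨tp_N1 _ _, by simp [tp, h], by simp [tp, h]⟩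

lemma ceq {a b : ℝ} (h1 : cos a = cos b) (h2 : sin a = sin b) : ∃ k : ℤ, a - b = 2 * π * k :=
  Angle.angle_eq_iff_two_pi_dvd_sub.1 (Angle.cos_sin_inj h1 h2)

lemma int_cont {X : Type} [TopologicalSpace X] {f : X → ℝ} (hf : Continuous f)
    (h : ∀ x, ∃ k : ℤ, f x = 2 * π * k) : ∃ n : C(X, ℤ), ∀ x, f x = 2 * π * n x := by
  choose k hk using h
  refine ⟨⟨k, Int.isClosedEmbedding_coe_real.isEmbedding.continuous_iff.2 ?_⟩, hk⟩
  have : ((↑) : ℤ → ℝ) ∘ k = fun x => f x / (2 * π) := by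
    ext x; simp only [Function.comp, hk]; field_simp
  rw [this]; fun_prop

lemma cst {X : Type} [TopologicalSpace X] [PreconnectedSpace X] {f : X → ℝ} (hf : Continuous f)
    (h : ∀ x, ∃ k : ℤ, f x = 2 * π * k) (x y : X) : f x = f y := by
  obtain ⟨n, hn⟩ := int_cont hf h
  rw [hn, hn, PreconnectedSpace.constant ‹_› n.continuous (x := x) (y := y)]

noncomputable def an (A B : ℝ) (n : ℤ) : ℝ := (A - B) / 2 + π * n

noncomputable def g (A B : ℝ) (n : ℤ) (t : ℝ) : W :=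
  tp (A - an A B n + an A B n * t) (B + an A B n + -an A B n * t)

lemma cur_tp (a b θ φ : ℝ) : cur a (tp θ φ) (tp (θ + π / 2) (φ + π / 2)) b =
    fun t => tp (θ + a * t) (φ + b * t) := by
  ext t j
  fin_cases j <;> simp [cur, tp, cos_add, sin_add] <;> ring

lemma g_eq (A B : ℝ) (n : ℤ) : g A B n = cur (an A B n) (tp (A - an A B n) (B + an A B n))
    (tp (A - an A B n + π / 2) (B + an A B n + π / 2)) (-an A B n) := by
  rw [cur_tp]; rfl

lemma g_one (A B : ℝ) (n : ℤ) : g A B n 1 = tp A B := by simp [g]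

lemma g_normal (A B : ℝ) (n : ℤ) : NormalGeo N1 M (g A B n) := by
  have h0 : g A B n 0 ∈ M := tp_M (k := n) (by simp [an]; ring)
  refine ⟨geo_of_eq (fun _ h => h.1) (g_eq A B n ▸ cur_smooth ..) (fun t => tp_N1 _ _)
    (g_eq A B n ▸ cur_geoEq _ _ _ _), h0, (normal_iff h0).2 ?_⟩
  have e1 := h0.2.1
  have e2 := h0.2.2
  rw [g_eq] at e1 e2 ⊢
  rw [cur_deriv]
  simp only [cur, scl, tp, cos_add_pi_div_two, sin_add_pi_div_two] at e1 e2 ⊢
  simp at e1 e2 ⊢
  rw [← e1, ← e2]; ring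

lemma g_energy (A B : ℝ) (n : ℤ) : energy (g A B n) = 2 * an A B n ^ 2 := by
  rw [g_eq, (cur_speed _ _ (tp_N1 _ _).1 (tp_N1 _ _).1 ?_ ?_).2]
  · ring
  all_goals simp [tp, cos_add_pi_div_two, sin_add_pi_div_two]; ring

lemma g_inj (A B : ℝ) : Function.Injective (g A B) := by
  intro n m h
  by_contra hne
  have hd : ((n - m : ℤ) : ℝ) ≠ 0 := Int.cast_ne_zero.2 (sub_ne_zero.2 hne)
  have e := congrFun h (1 - 1 / ((n - m : ℤ) : ℝ))
  obtain ⟨k, hk⟩ := ceq (congrArg (fun x : W => x 0) e) (congrArg (fun x : W => x 1) e)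
  have : π * (2 * k + 1) = 0 := by
    rw [an, an] at hk
    push_cast at hk hd
    field_simp at hk
    apply mul_left_cancel₀ hd
    linear_combination -hk / 2
  have h2 : (2 * k + 1 : ℤ) = 0 := by
    exact_mod_cast (mul_eq_zero.1 this).resolve_left pi_ne_zero
  omega

lemma dz {γ : ℝ → W} (h : ContDiff ℝ ∞ γ) {j : Fin 6} (hj : ∀ t, γ t j = 0) (t : ℝ) :
    deriv γ t j = 0 :=
  (sm1 h t j).unique ((hasDerivAt_const t (0 : ℝ)).congr_of_eventuallyEq (Eventually.of_forall hj))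

lemma g_all {A B : ℝ} {γ : ℝ → W} (h : NormalGeo N1 M γ) (h1 : γ 1 = tp A B) :
    ∃ n, γ = g A B n := by
  obtain ⟨hg, h0, hn⟩ := h
  have hn := (normal_iff h0).1 hn
  have z2 := fun t => (hg.2 t).1.2.1
  have z5 := fun t => (hg.2 t).1.2.2
  have o1 := orth (sm1 hg.1 · 0) (sm1 hg.1 · 1) (sm1 hg.1 · 2) (fun t => (hg.2 t).1.1.1) 0
  have o2 := orth (sm1 hg.1 · 3) (sm1 hg.1 · 4) (sm1 hg.1 · 5) (fun t => (hg.2 t).1.1.2) 0
  have xx : γ 0 0 ^ 2 + γ 0 1 ^ 2 = 1 := by have := h0.1.1.1; rw [z2] at this; linarith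
  obtain ⟨θ, c, s⟩ := ang xx
  obtain ⟨a, ha⟩ : ∃ a, a = γ 0 0 * deriv γ 0 1 - γ 0 1 * deriv γ 0 0 := ⟨_, rfl⟩
  rw [z2] at o1
  rw [z5, ← h0.2.1, ← h0.2.2] at o2
  have d0 : deriv γ 0 0 = -a * γ 0 1 := by
    linear_combination γ 0 1 * ha + γ 0 0 * o1 - deriv γ 0 0 * xx
  have d1 : deriv γ 0 1 = a * γ 0 0 := by
    linear_combination -γ 0 0 * ha + γ 0 1 * o1 - deriv γ 0 1 * xx
  have d3 : deriv γ 0 3 = a * γ 0 1 := by
    linear_combination -γ 0 1 * ha - γ 0 1 * hn + γ 0 0 * o2 - deriv γ 0 3 * xx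
  have d4 : deriv γ 0 4 = -a * γ 0 0 := by
    linear_combination γ 0 0 * ha + γ 0 0 * hn + γ 0 1 * o2 - deriv γ 0 4 * xx
  have f := formula (totgeo hg) (l := a) (m := -a)
    (by rw [d0, d1, dz hg.1 z2]; linear_combination -a ^ 2 * xx)
    (by rw [d3, d4, dz hg.1 z5]; linear_combination -a ^ 2 * xx)
  have e : ∀ t, γ t = tp (θ + a * t) (θ + -a * t) := by
    intro t
    obtain ⟨⟨f0, f1, -⟩, f3, f4, -⟩ := f t
    rw [d0] at f0; rw [d1] at f1; rw [d3, ← h0.2.1] at f3; rw [d4, ← h0.2.2] at f4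
    have s1 := S_mul a t
    have s2 := S_mul (-a) t
    ext j
    fin_cases j
    · simp only [tp, cos_add, c, s]; simp; linear_combination f0 - γ 0 1 * s1
    · simp only [tp, sin_add, c, s]; simp; linear_combination f1 + γ 0 0 * s1
    · simpa [tp] using z2 t
    · change γ t 3 = cos (θ + -a * t)
      rw [cos_add, c, s]; linear_combination f3 - γ 0 1 * s2
    · change γ t 4 = sin (θ + -a * t)
      rw [sin_add, c, s]; linear_combination f4 + γ 0 0 * s2
    · simpa [tp] using z5 t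
  rw [e] at h1
  obtain ⟨k, hk⟩ := ceq (congrArg (fun x : W => x 0) h1) (congrArg (fun x : W => x 1) h1)
  obtain ⟨m, hm⟩ := ceq (congrArg (fun x : W => x 3) h1) (congrArg (fun x : W => x 4) h1)
  refine ⟨k - m, funext fun t => ?_⟩
  have e1 : an A B (k - m) = a := by rw [an]; push_cast; linarith
  rw [e, g, e1, show θ + a * t = A - a + a * t + k * (2 * π) by linarith,
    show θ + -a * t = B + a + -a * t + m * (2 * π) by linarith]
  simp only [tp, cos_add_int_mul_two_pi, sin_add_int_mul_two_pi]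

lemma wind {x y d e : ℝ → ℝ} (hx : ∀ t, HasDerivAt x (d t) t) (hy : ∀ t, HasDerivAt y (e t) t)
    (cd : Continuous d) (ce : Continuous e) (h : ∀ t, x t ^ 2 + y t ^ 2 = 1) {A : ℝ}
    (h1 : x 1 = cos A) (h2 : y 1 = sin A) :
    x 0 = cos (A - ∫ t in (0 : ℝ)..1, (x t * e t - y t * d t)) ∧
      y 0 = sin (A - ∫ t in (0 : ℝ)..1, (x t * e t - y t * d t)) := by
  have cx : Continuous x := continuous_iff_continuousAt.2 fun t => (hx t).continuousAt
  have cy : Continuous y := continuous_iff_continuousAt.2 fun t => (hy t).continuousAt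
  have o := orth hx hy (fun t => hasDerivAt_const t (0 : ℝ)) (fun t => by simpa using h t)
  have c : Continuous fun t => x t * e t - y t * d t := by fun_prop
  have w := fun t => (c.integral_hasStrictDerivAt 0 t).hasDerivAt
  obtain ⟨om, hom⟩ : ∃ om : ℝ → ℝ, om = fun u => ∫ t in (0 : ℝ)..u, (x t * e t - y t * d t) := ⟨_, rfl⟩
  rw [← hom] at w
  have w0 : om 0 = 0 := by simp [hom]
  have a := const_of (f := fun t => cos (om t) * x t + sin (om t) * y t) (fun t =>
    (((w t).cos.mul (hx t)).add ((w t).sin.mul (hy t))).congr_deriv (by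
      linear_combination (cos (om t) * x t + sin (om t) * y t) * o t -
        (cos (om t) * d t + sin (om t) * e t) * h t)) 1
  have b := const_of (f := fun t => cos (om t) * y t - sin (om t) * x t) (fun t =>
    (((w t).cos.mul (hy t)).sub ((w t).sin.mul (hx t))).congr_deriv (by
      linear_combination (cos (om t) * y t - sin (om t) * x t) * o t -
        (cos (om t) * e t - sin (om t) * d t) * h t)) 1
  simp only [w0, cos_zero, sin_zero, h1, h2] at a b
  change x 0 = cos (A - (fun u => ∫ t in (0 : ℝ)..u, (x t * e t - y t * d t)) 1) ∧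
    y 0 = sin (A - (fun u => ∫ t in (0 : ℝ)..u, (x t * e t - y t * d t)) 1)
  rw [← hom, cos_sub, sin_sub]
  constructor <;> linarith

end Pool.Agent.H.MP_106964_gt
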