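import Mathlib
import Pool.Agent.H.MP_106964_gt.T
set_option autoImplicit false
namespace Pool.Agent.H.MP_106964_gt
open Set Filter Topology Real unitInterval
open scoped ContDiff RealInnerProductSpace

noncomputable def wn (γ : ℝ → W) (i j : Fin 6) : ℝ :=
  ∫ t in (0 : ℝ)..1, (γ t i * deriv γ t j - γ t j * deriv γ t i)

lemma circ {x : W} (h : x ∈ N1) : x 0 ^ 2 + x 1 ^ 2 = 1 ∧ x 3 ^ 2 + x 4 ^ 2 = 1 := by
  obtain ⟨⟨a, b⟩, c, d⟩ := h
  rw [c] at a; rw [d] at b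
  constructor <;> linarith

lemma wn_int {A B : ℝ} {γ : ℝ → W} (h : ContDiff ℝ ∞ γ) (hN : ∀ t, γ t ∈ N1) (h0 : γ 0 ∈ M)
    (h1 : γ 1 = tp A B) : ∃ k : ℤ, (A - wn γ 0 1) - (B - wn γ 3 4) = 2 * π * k := by
  have cd : Continuous (deriv γ) := h.continuous_deriv (by simp)
  have a := wind (sm1 h · 0) (sm1 h · 1) (by fun_prop) (by fun_prop) (fun t => (circ (hN t)).1)
    (A := A) (by simp [h1, tp]) (by simp [h1, tp])
  have b := wind (sm1 h · 3) (sm1 h · 4) (by fun_prop) (by fun_prop) (fun t => (circ (hN t)).2)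
    (A := B) (by simp [h1, tp]) (by simp [h1, tp])
  exact ceq (a.1.symm.trans (h0.2.1.trans b.1)) (a.2.symm.trans (h0.2.2.trans b.2))

lemma en_ge {γ : ℝ → W} (h : ContDiff ℝ ∞ γ) (hN : ∀ t, γ t ∈ N1) (a : ℝ) :
    2 * a * (wn γ 0 1 - wn γ 3 4) - 2 * a ^ 2 ≤ energy γ := by
  have cd : Continuous (deriv γ) := h.continuous_deriv (by simp)
  have cg := h.continuous
  have c1 : Continuous fun t => γ t 0 * deriv γ t 1 - γ t 1 * deriv γ t 0 := by fun_prop
  have c2 : Continuous fun t => γ t 3 * deriv γ t 4 - γ t 4 * deriv γ t 3 := by fun_prop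
  have e : 2 * a * (wn γ 0 1 - wn γ 3 4) - 2 * a ^ 2 = ∫ t in (0 : ℝ)..1,
      (2 * a * ((γ t 0 * deriv γ t 1 - γ t 1 * deriv γ t 0) -
        (γ t 3 * deriv γ t 4 - γ t 4 * deriv γ t 3)) - 2 * a ^ 2) := by
    rw [intervalIntegral.integral_sub (Continuous.intervalIntegrable (by fun_prop) _ _) (by simp),
      intervalIntegral.integral_const_mul, intervalIntegral.integral_sub (c1.intervalIntegrable _ _)
        (c2.intervalIntegrable _ _)]
    simp [wn]
  rw [e]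
  refine intervalIntegral.integral_mono_on zero_le_one (Continuous.intervalIntegrable (by fun_prop) _ _)
    (Continuous.intervalIntegrable (by fun_prop) _ _) fun t _ => ?_
  obtain ⟨p, q⟩ := circ (hN t)
  rw [nrm]
  have u1 : deriv γ t 0 ^ 2 + deriv γ t 1 ^ 2 = (γ t 0 * deriv γ t 1 - γ t 1 * deriv γ t 0) ^ 2 +
      (γ t 0 * deriv γ t 0 + γ t 1 * deriv γ t 1) ^ 2 := by
    linear_combination -(deriv γ t 0 ^ 2 + deriv γ t 1 ^ 2) * p
  have u2 : deriv γ t 3 ^ 2 + deriv γ t 4 ^ 2 = (γ t 3 * deriv γ t 4 - γ t 4 * deriv γ t 3) ^ 2 +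
      (γ t 3 * deriv γ t 3 + γ t 4 * deriv γ t 4) ^ 2 := by
    linear_combination -(deriv γ t 3 ^ 2 + deriv γ t 4 ^ 2) * q
  nlinarith [sq_nonneg (γ t 0 * deriv γ t 0 + γ t 1 * deriv γ t 1), sq_nonneg (deriv γ t 2),
    sq_nonneg (γ t 3 * deriv γ t 3 + γ t 4 * deriv γ t 4), sq_nonneg (deriv γ t 5),
    sq_nonneg (γ t 0 * deriv γ t 1 - γ t 1 * deriv γ t 0 - a),
    sq_nonneg (γ t 3 * deriv γ t 4 - γ t 4 * deriv γ t 3 + a)]

lemma wn_g (A B : ℝ) (n : ℤ) : wn (g A B n) 0 1 - wn (g A B n) 3 4 = 2 * an A B n := by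
  have e1 : ∀ t, g A B n t 0 * deriv (g A B n) t 1 - g A B n t 1 * deriv (g A B n) t 0 =
      an A B n := by
    intro t
    rw [g_eq, cur_deriv]
    simp [cur, scl, tp, cos_add_pi_div_two, sin_add_pi_div_two]
    linear_combination an A B n * (cos (an A B n * t) ^ 2 + sin (an A B n * t) ^ 2) *
      cos_sq_add_sin_sq (A - an A B n) + an A B n * cos_sq_add_sin_sq (an A B n * t)
  have e2 : ∀ t, g A B n t 3 * deriv (g A B n) t 4 - g A B n t 4 * deriv (g A B n) t 3 =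
      -an A B n := by
    intro t
    rw [g_eq, cur_deriv]
    simp [cur, scl, tp, cos_add_pi_div_two, sin_add_pi_div_two]
    linear_combination -an A B n * (cos (an A B n * t) ^ 2 + sin (an A B n * t) ^ 2) *
      cos_sq_add_sin_sq (B + an A B n) - an A B n * cos_sq_add_sin_sq (an A B n * t)
  simp [wn, e1, e2]; ring

lemma g_idx (A B : ℝ) (n : ℤ) (k : ℕ) : ¬ IdxGe N1 M (tp A B) (g A B n) (k + 1) := by
  refine idx_zero (fun Γ s1 s2 s3 s4 => Eventually.of_forall fun r => ?_) k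
  have sm : ∀ r, ContDiff ℝ ∞ (Γ r) := fun r => s1.comp (f := fun t : ℝ => (r, t)) (by fun_prop)
  have c1 := par_deriv s1
  have c0 := s1.continuous
  have cw : ∀ i j, Continuous fun r => wn (Γ r) i j := fun i j =>
    intervalIntegral.continuous_parametric_intervalIntegral_of_continuous'
      (f := fun r t => Γ r t i * deriv (Γ r) t j - Γ r t j * deriv (Γ r) t i)
      (by unfold Function.uncurry; fun_prop) 0 1
  have e := cst (f := fun r => (A - wn (Γ r) 0 1) - (B - wn (Γ r) 3 4)) (by fun_prop)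
    (fun r => wn_int (sm r) (s3 r) (s4 r).1 (s4 r).2) r 0
  have e2 := wn_g A B n
  have e3 := en_ge (sm r) (s3 r) (an A B n)
  simp only [s2] at e
  rw [g_energy]
  rw [show wn (Γ r) 0 1 - wn (Γ r) 3 4 = 2 * an A B n by linarith] at e3
  linarith

lemma crit0 (A B : ℝ) : Crit N1 M (tp A B) 0 = range (g A B) := by
  ext γ
  constructor
  · rintro ⟨a, b, -⟩
    obtain ⟨n, rfl⟩ := g_all a b
    exact ⟨n, rfl⟩
  · rintro ⟨n, rfl⟩
    exact ⟨g_normal .., g_one .., idx_ge0 (g_normal ..) (g_one ..), g_idx _ _ _ 0⟩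

lemma critK (A B : ℝ) (k : ℕ) : Crit N1 M (tp A B) (k + 1) = ∅ := by
  refine eq_empty_of_forall_notMem ?_
  rintro γ ⟨a, b, c, -⟩
  obtain ⟨n, rfl⟩ := g_all a b
  exact g_idx _ _ _ _ c

lemma lift {X : Type} [TopologicalSpace X] {u v : I × X → ℝ} (hu : Continuous u)
    (hv : Continuous v) (h : ∀ q, u q ^ 2 + v q ^ 2 = 1) {A : ℝ}
    (h1 : ∀ x, u (1, x) = cos A ∧ v (1, x) = sin A) : ∃ L : I × X → ℝ, Continuous L ∧
      (∀ q, cos (L q) = u q ∧ sin (L q) = v q) ∧ ∀ x, L (1, x) = A := by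
  have hm : ∀ q : I × X, ((u (σ q.1, q.2) : ℂ) + v (σ q.1, q.2) * Complex.I) ∈
      Submonoid.unitSphere ℂ := fun q => by
    change _ ∈ Metric.sphere (0 : ℂ) 1
    rw [mem_sphere_zero_iff_norm, Complex.norm_add_mul_I, h, sqrt_one]
  obtain ⟨H, hH⟩ : ∃ H : C(I × X, Circle), ∀ q,
      (H q : ℂ) = u (σ q.1, q.2) + v (σ q.1, q.2) * Complex.I :=
    ⟨⟨fun q => ⟨_, hm q⟩, Continuous.subtype_mk (by fun_prop) _⟩, fun _ => rfl⟩
  have H0 : ∀ x, H (0, x) = Circle.exp ((ContinuousMap.const X A) x) := fun x => by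
    ext
    simp [hH, h1, Complex.exp_mul_I]
  have a := Circle.isCoveringMap_exp.liftHomotopy_lifts H _ H0
  have b := Circle.isCoveringMap_exp.liftHomotopy_zero H _ H0
  generalize Circle.isCoveringMap_exp.liftHomotopy H _ H0 = L at a b
  refine ⟨fun q => L (σ q.1, q.2), by fun_prop, fun q => ?_, fun x => by simpa using b x⟩
  have c := congrArg (fun z : Circle => (z : ℂ)) (congrFun a (σ q.1, q.2))
  simp only [Function.comp, Circle.coe_exp, hH, symm_symm] at c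
  constructor
  · simpa [Complex.exp_ofReal_mul_I_re] using congrArg Complex.re c
  · simpa [Complex.exp_ofReal_mul_I_im] using congrArg Complex.im c

lemma tp_cont {X : Type} [TopologicalSpace X] {a b : X → ℝ} (ha : Continuous a)
    (hb : Continuous b) : Continuous fun x => tp (a x) (b x) :=
  cont6 fun j => by fin_cases j <;> simp [tp] <;> fun_prop

lemma uniq {f k : I → ℝ} (hf : Continuous f) (hk : Continuous k)
    (h : ∀ t, cos (f t) = cos (k t) ∧ sin (f t) = sin (k t)) (h1 : f 1 = k 1) : f 0 = k 0 := by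
  have := cst (f := fun t => f t - k t) (hf.sub hk) (fun t => ceq (h t).1 (h t).2) 0 1
  linarith

lemma pathsp (A B : ℝ) : ∃ (n : C(PathSp N1 M (tp A B), ℤ)) (j : C(ℤ, PathSp N1 M (tp A B))),
    Nonempty ((ContinuousMap.id _).Homotopy (j.comp n)) ∧ ∀ m, n (j m) = m := by
  have ce : Continuous fun q : I × PathSp N1 M (tp A B) => q.2.1 q.1 := by fun_prop
  obtain ⟨L, l1, l2, l3⟩ := lift (u := fun q : I × PathSp N1 M (tp A B) => q.2.1 q.1 0)
    (v := fun q => q.2.1 q.1 1) (by fun_prop) (by fun_prop) (fun q => (circ (q.2.2.1 _)).1) (A := A)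
    fun x => by simp [x.2.2.2, tp]
  obtain ⟨K, k1, k2, k3⟩ := lift (u := fun q : I × PathSp N1 M (tp A B) => q.2.1 q.1 3)
    (v := fun q => q.2.1 q.1 4) (by fun_prop) (by fun_prop) (fun q => (circ (q.2.2.1 _)).2) (A := B)
    fun x => by simp [x.2.2.2, tp]
  obtain ⟨n, hn⟩ := int_cont (f := fun c => K (0, c) - L (0, c)) (by fun_prop) fun c =>
    ceq ((k2 (0, c)).1.trans (c.2.2.1.2.1.symm.trans (l2 (0, c)).1.symm))
      ((k2 (0, c)).2.trans (c.2.2.1.2.2.symm.trans (l2 (0, c)).2.symm))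
  obtain ⟨j, hj⟩ : ∃ j : C(ℤ, PathSp N1 M (tp A B)), ∀ m (t : I),
      (j m).1 t = tp A (B + (1 - t) * (A + 2 * π * m - B)) :=
    ⟨⟨fun m => ⟨⟨_, tp_cont continuous_const (by fun_prop)⟩, fun t => tp_N1 _ _,
      tp_M (k := m) (by simp; ring), by simp⟩, continuous_of_discreteTopology⟩, fun _ _ => rfl⟩
  have cn : Continuous fun c => (n c : ℝ) := by fun_prop
  have hH : Continuous fun q : (I × PathSp N1 M (tp A B)) × I =>
      tp ((1 - q.1.1) * L (q.2, q.1.2) + q.1.1 * A) ((1 - q.1.1) * K (q.2, q.1.2) +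
        q.1.1 * (B + (1 - q.2) * (A + 2 * π * n q.1.2 - B))) := tp_cont (by fun_prop) (by fun_prop)
  refine ⟨n, j, ⟨⟨⟨fun q => ⟨(ContinuousMap.mk _ hH).curry q, fun t => tp_N1 _ _,
    tp_M (k := n q.2) ?_, ?_⟩, Continuous.subtype_mk (by fun_prop) _⟩, fun c => ?_, fun c => ?_⟩⟩,
    fun m => ?_⟩
  · simp; linear_combination (1 - (q.1 : ℝ)) * hn q.2
  · change tp _ _ = _
    simp [l3, k3]; congr 1 <;> ring
  · ext t i
    have a := l2 (t, c)
    have b := k2 (t, c)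
    have d := c.2.1 t
    change tp _ _ i = c.1 t i
    fin_cases i <;> simp [tp, d.2.1, d.2.2]
    exacts [a.1, a.2, b.1, b.2]
  · ext t i
    change tp _ _ i = (j (n c)).1 t i
    simp [hj]
  · have a := uniq (f := fun t => L (t, j m)) (k := fun _ => A) (by fun_prop) continuous_const
      (fun t => by simp only [l2]; rw [hj]; simp [tp]) (l3 _)
    have b := uniq (f := fun t => K (t, j m)) (k := fun t => B + (1 - t) * (A + 2 * π * m - B))
      (by fun_prop) (by fun_prop) (fun t => by simp only [k2]; rw [hj]; simp [tp]) (by simp [k3])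
    have c := hn (j m)
    simp only [a, b] at c
    have : 2 * π * (n (j m) : ℝ) = 2 * π * m := by simp at c ⊢; linarith
    exact_mod_cast mul_left_cancel₀ (by positivity) this

theorem taut : Taut N1 M := by
  refine ⟨ℚ, inferInstance, fun p hp _ k => ?_⟩
  obtain ⟨A, a1, a2⟩ := ang (circ hp).1
  obtain ⟨B, b1, b2⟩ := ang (circ hp).2
  obtain rfl : p = tp A B := by
    ext j; fin_cases j <;> simp [tp, a1, a2, b1, b2, hp.2.1, hp.2.2]
  obtain ⟨n, j, ⟨H⟩, h⟩ := pathsp A B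
  cases k with
  | succ k => rw [critK, bettiK ℚ _ n j H]; simp
  | zero =>
    rw [crit0, betti0, Cardinal.mk_range_eq _ (g_inj A B)]
    refine (Equiv.ofBijective (fun m => (⟦j m⟧ : ZerothHomotopy _)) ⟨fun a b e => ?_, ?_⟩).cardinal_eq
    · obtain ⟨γ⟩ := Quotient.exact e
      have := PreconnectedSpace.constant inferInstance (n.continuous.comp γ.continuous)
        (x := 0) (y := 1)
      simpa [h] using this
    · rintro ⟨c⟩
      exact ⟨n c, Quotient.sound ⟨(H.evalAt c).symm⟩⟩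

def rf (p : W) : W →ₗ[ℝ] W where
  toFun x := !₂[2 * (p 0 * x 0 + p 1 * x 1 + p 2 * x 2) * p 0 - x 0,
    2 * (p 0 * x 0 + p 1 * x 1 + p 2 * x 2) * p 1 - x 1,
    2 * (p 0 * x 0 + p 1 * x 1 + p 2 * x 2) * p 2 - x 2,
    2 * (p 3 * x 3 + p 4 * x 4 + p 5 * x 5) * p 3 - x 3,
    2 * (p 3 * x 3 + p 4 * x 4 + p 5 * x 5) * p 4 - x 4,
    2 * (p 3 * x 3 + p 4 * x 4 + p 5 * x 5) * p 5 - x 5]
  map_add' x y := by ext j; fin_cases j <;> simp <;> ring
  map_smul' c x := by ext j; fin_cases j <;> simp <;> ring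

lemma symN0 (p : W) (hp : p ∈ N0) :
    ∃ s : W ≃ₗᵢ[ℝ] W, s '' N0 = N0 ∧ s p = p ∧ ∀ v ∈ tang N0 p, s v = -v := by
  obtain ⟨h1, h2⟩ := hp
  have q1 : ∀ x : W, rf p x 0 ^ 2 + rf p x 1 ^ 2 + rf p x 2 ^ 2 = x 0 ^ 2 + x 1 ^ 2 + x 2 ^ 2 :=
    fun x => by simp [rf]; linear_combination 4 * (p 0 * x 0 + p 1 * x 1 + p 2 * x 2) ^ 2 * h1
  have q2 : ∀ x : W, rf p x 3 ^ 2 + rf p x 4 ^ 2 + rf p x 5 ^ 2 = x 3 ^ 2 + x 4 ^ 2 + x 5 ^ 2 :=
    fun x => by simp [rf]; linear_combination 4 * (p 3 * x 3 + p 4 * x 4 + p 5 * x 5) ^ 2 * h2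
  have iv : Function.Involutive (rf p) := fun x => by
    ext j
    fin_cases j <;> simp [rf]
    · linear_combination 4 * (p 0 * x 0 + p 1 * x 1 + p 2 * x 2) * p 0 * h1
    · linear_combination 4 * (p 0 * x 0 + p 1 * x 1 + p 2 * x 2) * p 1 * h1
    · linear_combination 4 * (p 0 * x 0 + p 1 * x 1 + p 2 * x 2) * p 2 * h1
    · linear_combination 4 * (p 3 * x 3 + p 4 * x 4 + p 5 * x 5) * p 3 * h2
    · linear_combination 4 * (p 3 * x 3 + p 4 * x 4 + p 5 * x 5) * p 4 * h2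
    · linear_combination 4 * (p 3 * x 3 + p 4 * x 4 + p 5 * x 5) * p 5 * h2
  have m : ∀ x ∈ N0, rf p x ∈ N0 := fun x hx => ⟨(q1 x).trans hx.1, (q2 x).trans hx.2⟩
  refine ⟨⟨LinearEquiv.ofInvolutive _ iv, fun x => ?_⟩, ?_, ?_, fun v hv => ?_⟩
  · change ‖rf p x‖ = _
    rw [← pow_left_inj₀ (norm_nonneg _) (norm_nonneg _) two_ne_zero, nrm, nrm]
    linear_combination q1 x + q2 x
  · exact subset_antisymm (image_subset_iff.2 m) fun x hx => ⟨rf p x, m x hx, iv x⟩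
  · change rf p p = p
    ext j
    fin_cases j <;> simp [rf]
    · linear_combination 2 * p 0 * h1
    · linear_combination 2 * p 1 * h1
    · linear_combination 2 * p 2 * h1
    · linear_combination 2 * p 3 * h2
    · linear_combination 2 * p 4 * h2
    · linear_combination 2 * p 5 * h2
  · obtain ⟨a, b⟩ := tang_N0 hv
    change rf p v = -v
    ext j
    fin_cases j <;> simp [rf, a, b]

theorem main : (∀ p ∈ N0, ∃ s : W ≃ₗᵢ[ℝ] W, s '' N0 = N0 ∧ s p = p ∧ ∀ v ∈ tang N0 p, s v = -v) ∧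
    (∀ γ, IsGeo N1 γ → IsGeo N0 γ) ∧ Taut N1 M ∧ ¬ Taut N0 M :=
  ⟨symN0, fun _ => totgeo, taut, not_taut⟩

end Pool.Agent.H.MP_106964_gt
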